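import Pool.Agent.N509.RG.Rep

set_option autoImplicit false

/-!
# Free groups of finite rank at least two are flexible
-/

namespace Pool.Agent.N509.RG

open Matrix Polynomial

section words

variable {r : ℕ}

/-- the slope of the eigenvector -/
def cs (s : Fin r × Bool) : ℚ := 2 * s.1 + cond s.2 0 1

/-- the inverse letter -/
def bar (s : Fin r × Bool) : Fin r × Bool := (s.1, !s.2)

theorem bar_bar (s : Fin r × Bool) : bar (bar s) = s := by
  rcases s with ⟨i, b⟩
  simp [bar]

/-- the sign -/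
def sg (s : Fin r × Bool) : ℚ := cond s.2 1 (-1)

theorem sg_mul (s : Fin r × Bool) : sg s * (cs (bar s) - cs s) = 1 := by
  rcases s with ⟨i, b⟩
  cases b <;> simp [sg, cs, bar]

theorem cs_injective : Function.Injective (cs : Fin r × Bool → ℚ) := by
  rintro ⟨i, b⟩ ⟨j, b'⟩ h
  have h1 : (2 * (i : ℕ) + cond b 0 1 : ℕ) = 2 * (j : ℕ) + cond b' 0 1 := by
    have h2 : ((2 * (i : ℕ) + cond b 0 1 : ℕ) : ℚ) = ((2 * (j : ℕ) + cond b' 0 1 : ℕ) : ℚ) := by
      cases b <;> cases b' <;> simp [cs] at h ⊢ <;> linarith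
    exact_mod_cast h2
  have h2 : (i : ℕ) = j ∧ b = b' := by
    cases b <;> cases b' <;> simp at h1 ⊢ <;> omega
  exact Prod.ext (Fin.ext h2.1) h2.2

/-- the projections to the eigenlines -/
def PP (s : Fin r × Bool) : Matrix (Fin 2) (Fin 2) ℚ :=
  !![sg s * cs (bar s), - sg s; cs s * (sg s * cs (bar s)), - (cs s * sg s)]

theorem PP_mul (s s' : Fin r × Bool) : ∀ (s'' : Fin r × Bool) (k : ℚ),
    PP s * (k • !![sg s'' * cs (bar s''), - sg s''; cs s' * (sg s'' * cs (bar s'')),
      - (cs s' * sg s'')]) =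
    (k * (sg s * (cs (bar s) - cs s'))) • !![sg s'' * cs (bar s''), - sg s'';
      cs s * (sg s'' * cs (bar s'')), - (cs s * sg s'')] := by
  intro s'' k
  ext i j
  fin_cases i <;> fin_cases j <;> simp [PP, Matrix.mul_apply, Fin.sum_univ_two] <;> ring

theorem PP_prod (L : List (Fin r × Bool)) : ∀ s, FreeGroup.IsReduced (s :: L) →
    ∃ (s'' : Fin r × Bool) (k : ℚ), k ≠ 0 ∧ ((s :: L).map PP).prod =
      k • !![sg s'' * cs (bar s''), - sg s''; cs s * (sg s'' * cs (bar s'')), - (cs s * sg s'')] := by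
  induction L with
  | nil =>
    intro s _
    refine ⟨s, 1, one_ne_zero, ?_⟩
    rw [List.map_singleton, List.prod_singleton, one_smul]
    rfl
  | cons s' L ih =>
    intro s h
    obtain ⟨s'', k, hk, h1⟩ := ih s' (FreeGroup.isReduced_cons_cons.1 h).2
    refine ⟨s'', k * (sg s * (cs (bar s) - cs s')), ?_, ?_⟩
    · refine mul_ne_zero hk (mul_ne_zero ?_ (sub_ne_zero.2 fun h2 => ?_))
      · rcases s with ⟨i, b⟩
        cases b <;> simp [sg]
      · have h3 := cs_injective h2
        have h4 := (FreeGroup.isReduced_cons_cons.1 h).1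
        rw [← h3] at h4
        have h5 := h4 rfl
        simp [bar] at h5
    · rw [List.map_cons, List.prod_cons, h1, PP_mul]

theorem PP_prod_ne (L : List (Fin r × Bool)) (hL : L ≠ []) (h : FreeGroup.IsReduced L) :
    (L.map PP).prod ≠ 0 := by
  obtain ⟨s, L, rfl⟩ := List.exists_cons_of_ne_nil hL
  obtain ⟨s'', k, hk, h1⟩ := PP_prod L s h
  rw [h1]
  intro h2
  have h3 := congrFun (congrFun h2 0) 1
  simp at h3
  rcases h3 with h3 | h3
  · exact hk h3
  · rcases s'' with ⟨i, b⟩
    cases b <;> simp [sg] at h3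

end words

section rep

variable {r : ℕ} (t : ℂ)

/-- the matrix of a letter -/
noncomputable def MM (s : Fin r × Bool) : Matrix (Fin 2) (Fin 2) ℂ :=
  t • (PP s).map (algebraMap ℚ ℂ) + t⁻¹ • (PP (bar s)).map (algebraMap ℚ ℂ)

/-- the scaled polynomial matrix of a letter -/
noncomputable def NN (s : Fin r × Bool) : Matrix (Fin 2) (Fin 2) ℚ[X] :=
  (PP (bar s)).map C + (X ^ 2 : ℚ[X]) • (PP s).map C

theorem NN_coeff (s : Fin r × Bool) : (matPolyEquiv (NN s)).coeff 2 = PP s := by
  ext i j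
  rw [matPolyEquiv_coeff_apply, NN]
  simp [coeff_C]

theorem NN_degree (s : Fin r × Bool) : (matPolyEquiv (NN s)).natDegree ≤ 2 := by
  rw [natDegree_le_iff_coeff_eq_zero]
  intro N hN
  ext i j
  rw [matPolyEquiv_coeff_apply, NN]
  simp [coeff_C, coeff_X_pow]
  rw [if_neg (by omega), if_neg (by omega)]
  simp

theorem NN_eval (ht : t ≠ 0) (s : Fin r × Bool) :
    (aeval t : ℚ[X] →ₐ[ℚ] ℂ).mapMatrix (NN s) = t • MM t s := by
  ext i j
  simp only [NN, MM, AlgHom.mapMatrix_apply, Matrix.map_apply, Matrix.add_apply, Matrix.smul_apply,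
    smul_eq_mul, map_add, map_mul, map_pow, aeval_X, aeval_C]
  field_simp
  ring

theorem NN_prod_eval (ht : t ≠ 0) (L : List (Fin r × Bool)) :
    (aeval t : ℚ[X] →ₐ[ℚ] ℂ).mapMatrix (L.map NN).prod = t ^ L.length • (L.map (MM t)).prod := by
  induction L with
  | nil => simp
  | cons s L ih =>
    rw [List.map_cons, List.prod_cons, map_mul, ih, NN_eval t ht, List.map_cons, List.prod_cons,
      List.length_cons, pow_succ', smul_mul_smul_comm]

theorem MM_prod_ne (ht : Transcendental ℚ t) (L : List (Fin r × Bool)) (hL : L ≠ [])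
    (h : FreeGroup.IsReduced L) : (L.map (MM t)).prod ≠ 1 := by
  intro h1
  have ht0 : t ≠ 0 := by
    rintro rfl
    exact ht isAlgebraic_zero
  have h2 := NN_prod_eval t ht0 L
  rw [h1] at h2
  have h3 : (L.map NN).prod = (X ^ L.length : ℚ[X]) • (1 : Matrix (Fin 2) (Fin 2) ℚ[X]) := by
    ext1 i j
    have hinj : Function.Injective (aeval t : ℚ[X] →ₐ[ℚ] ℂ) :=
      transcendental_iff_injective.1 ht
    apply hinj
    have h4 := congrFun (congrFun h2 i) j
    rw [AlgHom.mapMatrix_apply, Matrix.map_apply] at h4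
    rw [h4]
    simp only [Matrix.smul_apply, smul_eq_mul, map_mul, map_pow, aeval_X, Matrix.one_apply]
    split_ifs <;> simp
  have h5 : (matPolyEquiv (L.map NN).prod).coeff (L.length * 2) = (L.map PP).prod := by
    have h6 : matPolyEquiv (L.map NN).prod = (L.map fun s => matPolyEquiv (NN s)).prod := by
      rw [map_list_prod, List.map_map]
      rfl
    rw [h6]
    have h7 := coeff_list_prod_of_natDegree_le (L.map fun s => matPolyEquiv (NN s)) 2 (by
      intro p hp
      rw [List.mem_map] at hp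
      obtain ⟨s, _, rfl⟩ := hp
      exact NN_degree s)
    rw [List.length_map, List.map_map] at h7
    rw [h7]
    congr 1
    apply List.map_congr_left
    intro s _
    exact NN_coeff s
  apply PP_prod_ne L hL h
  rw [← h5, h3]
  have hlen : 0 < L.length := List.length_pos_iff.2 hL
  ext i j
  rw [matPolyEquiv_coeff_apply]
  simp only [Matrix.smul_apply, smul_eq_mul, Matrix.one_apply, Matrix.zero_apply]
  split_ifs
  · rw [mul_one, coeff_X_pow, if_neg (by omega)]
  · rw [mul_zero, coeff_zero]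

theorem sg_bar (s : Fin r × Bool) : sg (bar s) = - sg s := by
  rcases s with ⟨i, b⟩
  cases b <;> simp [sg, bar]

theorem sg_mul' (s : Fin r × Bool) :
    ((sg s : ℚ) : ℂ) * (((cs (bar s) : ℚ) : ℂ) - ((cs s : ℚ) : ℂ)) = 1 := by
  exact_mod_cast sg_mul s

theorem MM_det (ht : t ≠ 0) (s : Fin r × Bool) : (MM t s).det = 1 := by
  have h1 := sg_mul' s
  have h2 : t * t⁻¹ = 1 := mul_inv_cancel₀ ht
  rw [Matrix.det_fin_two]
  simp [MM, PP, bar_bar, sg_bar]
  linear_combination (((sg s : ℚ) : ℂ) ^ 2 * (((cs (bar s) : ℚ) : ℂ) ^ 2 + ((cs s : ℚ) : ℂ) ^ 2 -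
    2 * ((cs s : ℚ) : ℂ) * ((cs (bar s) : ℚ) : ℂ))) * h2 +
    (((sg s : ℚ) : ℂ) * (((cs (bar s) : ℚ) : ℂ) - ((cs s : ℚ) : ℂ)) + 1) * h1

theorem MM_trace (s : Fin r × Bool) : (MM t s).trace = t + t⁻¹ := by
  have h1 := sg_mul' s
  rw [Matrix.trace_fin_two]
  simp [MM, PP, bar_bar, sg_bar]
  linear_combination (t + t⁻¹) * h1

theorem MM_adj (s : Fin r × Bool) : (MM t s).adjugate = MM t (bar s) := by
  rw [Matrix.adjugate_fin_two]
  ext i j
  fin_cases i <;> fin_cases j <;> simp [MM, PP, bar_bar, sg_bar] <;> ring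

/-- the image of a generator -/
noncomputable def gen (ht : t ≠ 0) (i : Fin r) : SpecialLinearGroup (Fin 2) ℂ :=
  ⟨MM t (i, true), MM_det t ht _⟩

/-- the representation -/
noncomputable def frep (ht : t ≠ 0) : FreeGroup (Fin r) →* SpecialLinearGroup (Fin 2) ℂ :=
  FreeGroup.lift (gen t ht)

theorem frep_of (ht : t ≠ 0) (i : Fin r) : (frep t ht (FreeGroup.of i)).1 = MM t (i, true) := by
  rw [frep, FreeGroup.lift_apply_of]
  rfl

theorem frep_mk (ht : t ≠ 0) (L : List (Fin r × Bool)) :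
    (frep t ht (FreeGroup.mk L)).1 = (L.map (MM t)).prod := by
  rw [frep, FreeGroup.lift_mk]
  induction L with
  | nil => rfl
  | cons s L ih =>
    rw [List.map_cons, List.prod_cons, List.map_cons, List.prod_cons, ← ih]
    have h1 : ∀ A B : SpecialLinearGroup (Fin 2) ℂ, (A * B).1 = A.1 * B.1 := fun _ _ => rfl
    refine (h1 _ _).trans ?_
    congr 1
    rcases s with ⟨i, b⟩
    cases b
    · change (MM t (i, true)).adjugate = MM t (i, false)
      rw [MM_adj]
      rfl
    · rfl

theorem frep_injective (ht : Transcendental ℚ t) (ht0 : t ≠ 0) :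
    Function.Injective (frep (r := r) t ht0) := by
  classical
  rw [injective_iff_map_eq_one]
  intro x hx
  by_contra hne
  have h1 := frep_mk t ht0 x.toWord
  rw [FreeGroup.mk_toWord, hx] at h1
  refine MM_prod_ne t ht x.toWord ?_ FreeGroup.isReduced_toWord h1.symm
  intro h2
  exact hne (FreeGroup.toWord_eq_nil_iff.1 h2)

end rep

theorem transcendental_add_inv {t : ℂ} (ht : Transcendental ℚ t) : Transcendental ℚ (t + t⁻¹) := by
  intro h
  apply ht
  have ht0 : t ≠ 0 := by
    rintro rfl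
    exact ht isAlgebraic_zero
  obtain ⟨K, hK⟩ : ∃ K : IntermediateField ℚ ℂ, K = algebraicClosure ℚ ℂ := ⟨_, rfl⟩
  have hmem : t + t⁻¹ ∈ K := by
    rw [hK, mem_algebraicClosure_iff]
    exact h
  have halg : Algebra.IsAlgebraic ℚ K := by
    rw [hK]
    exact algebraicClosure.isAlgebraic ℚ ℂ
  have h1 : IsAlgebraic K t := by
    refine ⟨X ^ 2 - C (⟨t + t⁻¹, hmem⟩ : K) * X + 1, ?_, ?_⟩
    · intro h0
      have h2 := congrArg (fun p => p.coeff 0) h0
      simp at h2
    · simp only [map_add, map_sub, map_mul, map_pow, aeval_X, aeval_C, map_one]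
      change t ^ 2 - (t + t⁻¹) * t + 1 = 0
      field_simp
      ring
  exact h1.restrictScalars ℚ

theorem exists_transcendental : ∃ t : ℂ, Transcendental ℚ t := by
  by_contra h
  push Not at h
  have h1 := Algebraic.countable ℚ ℂ
  have h2 : {x : ℂ | IsAlgebraic ℚ x} = Set.univ := by
    ext x
    simp only [Set.mem_ofPred_eq, Set.mem_univ, iff_true]
    by_contra hx
    exact h x hx
  rw [h2] at h1
  exact not_countable_complex h1

/-- Free groups of finite rank at least two are flexible. -/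
theorem flexible_free (r : ℕ) (hr : 2 ≤ r) : Flexible ℚ (FreeGroup (Fin r)) := by
  obtain ⟨t, ht⟩ := exists_transcendental
  have ht0 : t ≠ 0 := by
    rintro rfl
    exact ht isAlgebraic_zero
  refine ⟨frep t ht0, frep_injective t ht ht0, FreeGroup.of ⟨0, by omega⟩, FreeGroup.of ⟨1, by omega⟩,
    ?_, ?_, ?_⟩
  · intro h
    have h1 := congrArg FreeGroup.toWord h
    simp [FreeGroup.toWord_mul, FreeGroup.reduce] at h1
  · rw [frep_of, MM_trace, ← isAlgebraic_iff_isIntegral]
    exact transcendental_add_inv ht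
  · rw [frep_of, MM_trace, ← isAlgebraic_iff_isIntegral]
    exact transcendental_add_inv ht

end Pool.Agent.N509.RG
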