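import Pool.Agent.N509.RG.AutC

set_option autoImplicit false

/-!
# Automorphism groups of finitely generated groups with finite centre
-/

namespace Pool.Agent.N509.RG

open Pool.Agent.Y110.FJ (ClosedE)

/-- an automorphism trivial on `N` and on `G / N` moves the elements by elements of the centre of
`N` -/
theorem mem_center_of {G : Type} [Group G] (N : Subgroup G) [N.Normal] (θ : Stb N)
    (h1 : resN N θ = 1) (h2 : quoN N θ = 1) (g : G) :
    ∃ z ∈ Subgroup.center N, (z : G) = g⁻¹ * θ.1 g := by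
  have h3 : (QuotientGroup.mk (θ.1 g) : G ⧸ N) = QuotientGroup.mk g := by
    rw [← quoN_apply, h2]
    rfl
  have h4 : g⁻¹ * θ.1 g ∈ N := QuotientGroup.eq.1 h3.symm
  have h5 : ∀ n ∈ N, θ.1 n = n := by
    intro n hn
    have h6 := congrArg Subtype.val (DFunLike.congr_fun h1 ⟨n, hn⟩)
    exact h6
  refine ⟨⟨g⁻¹ * θ.1 g, h4⟩, ?_, rfl⟩
  rw [Subgroup.mem_center_iff]
  intro n
  apply Subtype.ext
  change n.1 * (g⁻¹ * θ.1 g) = g⁻¹ * θ.1 g * n.1
  have h7 := h5 (g * n.1 * g⁻¹) (Subgroup.Normal.conj_mem ‹_› n.1 n.2 g)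
  rw [map_mul, map_mul, map_inv, h5 n.1 n.2] at h7
  have h8 : θ.1 g * n.1 = g * n.1 * g⁻¹ * θ.1 g := by
    rw [← h7]
    group
  rw [mul_assoc g⁻¹, h8]
  group

/-- two automorphisms which agree on generators -/
theorem mulAut_ext_closure {G : Type} [Group G] {S : Set G} (hS : Subgroup.closure S = ⊤)
    {θ θ' : MulAut G} (h : ∀ s ∈ S, θ s = θ' s) : θ = θ' := by
  have h1 : θ.toMonoidHom = θ'.toMonoidHom := MonoidHom.eq_of_eqOn_dense hS h
  ext g
  exact DFunLike.congr_fun h1 g

theorem finite_kernel {G : Type} [Group G] [hG : Group.FG G] (N : Subgroup G) [N.Normal]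
    (hN : Finite (Subgroup.center N)) : Finite ((resN N).prod (quoN N)).ker := by
  obtain ⟨S, hS⟩ := hG.out
  have hz : ∀ (θ : ((resN N).prod (quoN N)).ker) (s : S),
      ∃ z : Subgroup.center N, ((z : N) : G) = s.1⁻¹ * θ.1.1 s.1 := by
    intro θ s
    have h1 : ((resN N).prod (quoN N)) θ.1 = 1 := θ.2
    obtain ⟨z, hz, h2⟩ := mem_center_of N θ.1 (congrArg Prod.fst h1) (congrArg Prod.snd h1) s.1
    exact ⟨⟨z, hz⟩, h2⟩
  choose z hz using hz
  refine Finite.of_injective (fun θ : ((resN N).prod (quoN N)).ker => z θ) ?_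
  intro θ θ' h
  apply Subtype.ext
  apply Subtype.ext
  refine mulAut_ext_closure hS fun s hs => ?_
  have h1 := congrFun h ⟨s, hs⟩
  have h2 := hz θ ⟨s, hs⟩
  change z θ ⟨s, hs⟩ = z θ' ⟨s, hs⟩ at h1
  rw [h1, hz θ' ⟨s, hs⟩] at h2
  exact (mul_left_cancel h2).symm

/-- finitely generated, with finite centre and automorphism group in the class -/
def AutFin (C : ∀ (G : Type) [Group G], Prop) (G : Type) [Group G] : Prop :=
  Group.FG G ∧ Finite (Subgroup.center G) ∧ C (MulAut G)

section

variable {C : ∀ (G : Type) [Group G], Prop} {G : Type} [Group G]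

/-- homomorphisms with finite kernel to a group in the class -/
theorem C_of_finite_ker (hC : ClosedE C) {E P : Type} [Group E] [Group P] (f : E →* P)
    (hf : Finite f.ker) (hP : C P) : C E :=
  C_of_normal hC f.ker (CyclicExt.of_finite hC)
    (hC.base.of_injective _ _ (QuotientGroup.kerLift f) (QuotientGroup.kerLift_injective f) hP)

theorem center_finite_ext (N : Subgroup G) [N.Normal] (hN : Finite (Subgroup.center N))
    (hQ : Finite (Subgroup.center (G ⧸ N))) : Finite (Subgroup.center G) := by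
  let f : Subgroup.center G →* Subgroup.center (G ⧸ N) :=
    ((QuotientGroup.mk' N).comp (Subgroup.center G).subtype).codRestrict (Subgroup.center (G ⧸ N)) (by
      rintro ⟨z, hz⟩
      rw [Subgroup.mem_center_iff] at hz ⊢
      intro q
      obtain ⟨x, rfl⟩ := QuotientGroup.mk_surjective q
      exact congrArg QuotientGroup.mk (hz x))
  have hker : Finite f.ker := by
    refine Finite.of_injective (β := Subgroup.center N)
      (fun z => ⟨⟨z.1.1, ?_⟩, ?_⟩) ?_
    · have h1 : f z.1 = 1 := z.2
      exact (QuotientGroup.eq_one_iff _).1 (congrArg Subtype.val h1)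
    · rw [Subgroup.mem_center_iff]
      intro n
      exact Subtype.ext ((Subgroup.mem_center_iff.1 z.1.2) n.1)
    · intro z z' h
      apply Subtype.ext
      apply Subtype.ext
      exact congrArg (fun y : Subgroup.center N => ((y : N) : G)) h
  have hq : Finite (Subgroup.center G ⧸ f.ker) :=
    Finite.of_injective (QuotientGroup.kerLift f) (QuotientGroup.kerLift_injective f)
  exact Finite.of_subgroup_quotient f.ker

theorem AutFin.congr (hC : ClosedE C) {H : Type} [Group H] (e : G ≃* H) (h : AutFin C G) :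
    AutFin C H := by
  obtain ⟨h1, h2, h3⟩ := h
  refine ⟨Group.fg_of_surjective (f := e.toMonoidHom) e.surjective, ?_,
    hC.base.of_injective _ _ (MulAut.congr e).symm.toMonoidHom (MulEquiv.injective _) h3⟩
  refine Finite.of_injective (β := Subgroup.center G) (fun z => ⟨e.symm z.1, ?_⟩) ?_
  · rw [Subgroup.mem_center_iff]
    intro g
    apply e.injective
    rw [map_mul, map_mul, e.apply_symm_apply]
    exact Subgroup.mem_center_iff.1 z.2 (e g)
  · intro z z' h
    apply Subtype.ext
    exact e.symm.injective (congrArg Subtype.val h)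

theorem AutFin.ext (hC : ClosedE C) (N : Subgroup G) [N.Normal] (hN : Rigid N)
    (h1 : AutFin C N) (h2 : AutFin C (G ⧸ N)) : AutFin C G := by
  have hfg : Group.FG G := fg_of_ext N h1.1 h2.1
  refine ⟨hfg, center_finite_ext N h1.2.1 h2.2.1, ?_⟩
  refine hC.base.finiteIndex _ (Stb N) (Stb_finiteIndex hN.finite_orbit) ?_
  exact C_of_finite_ker hC ((resN N).prod (quoN N)) (finite_kernel N h1.2.1)
    (hC.base.prod _ _ h1.2.2 h2.2.2)

/-- extensions with kernel `G` -/
theorem AutFin.extension (hC : ClosedE C) (h : AutFin C G) {E : Type} [Group E] (N : Subgroup E)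
    [N.Normal] (e : G ≃* N) (hQ : C (E ⧸ N)) : C E := by
  have h' : AutFin C N := h.congr hC e
  have hfin := h'.2.1
  refine C_of_finite_ker hC ((MulAut.conjNormal (H := N)).prod (QuotientGroup.mk' N)) ?_
    (hC.base.prod _ _ h'.2.2 hQ)
  refine Finite.of_injective (β := Subgroup.center N) (fun z => ⟨⟨z.1, ?_⟩, ?_⟩) ?_
  · have h1 : ((MulAut.conjNormal (H := N)).prod (QuotientGroup.mk' N)) z.1 = 1 := z.2
    exact (QuotientGroup.eq_one_iff _).1 (congrArg Prod.snd h1)
  · have h1 : ((MulAut.conjNormal (H := N)).prod (QuotientGroup.mk' N)) z.1 = 1 := z.2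
    have h2 : MulAut.conjNormal (H := N) z.1 = 1 := congrArg Prod.fst h1
    rw [Subgroup.mem_center_iff]
    intro n
    have h3 := congrArg (fun φ : MulAut N => ((φ n : N) : E)) h2
    change z.1 * n.1 * z.1⁻¹ = n.1 at h3
    apply Subtype.ext
    change n.1 * z.1 = z.1 * n.1
    rw [mul_inv_eq_iff_eq_mul] at h3
    exact h3.symm
  · intro z z' hzz
    apply Subtype.ext
    exact congrArg (fun y : Subgroup.center N => ((y : N) : E)) hzz

variable {Γ : Type} [Group Γ]

theorem autFin_series (hC : ClosedE C) (n : ℕ) (H : ℕ → Subgroup Γ)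
    (hle : ∀ i < n, H i ≤ H (i + 1)) (h0 : AutFin C (H 0))
    (hstep : ∀ i < n, Rigid ((H i).subgroupOf (H (i + 1))) ∧
      ∃ _ : ((H i).subgroupOf (H (i + 1))).Normal,
        AutFin C (H (i + 1) ⧸ (H i).subgroupOf (H (i + 1)))) : AutFin C (H n) := by
  have key : ∀ i ≤ n, AutFin C (H i) := by
    intro i
    induction i with
    | zero => exact fun _ => h0
    | succ i ih =>
      intro hi
      obtain ⟨h1, hn, h2⟩ := hstep i (by omega)
      exact AutFin.ext hC _ h1
        ((ih (by omega)).congr hC (Subgroup.subgroupOfEquivOfLe (hle i (by omega))).symm) h2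
  exact key n le_rfl

end

end Pool.Agent.N509.RG
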