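import Pool.Agent.N509.RG.Ser
import Pool.Agent.N509.RG.Free

set_option autoImplicit false

/-!
# The theorems
-/

namespace Pool.Agent.N509.RG

open Pool.Agent.Y110.FJ (ClosedE)

/-- Conditions under which a normal subgroup has only finitely many images under the automorphisms of
the group: `G` is finitely generated, `H₁(N; ℚ)` is finite-dimensional and `G / N` is a subgroup of
`SL₂(ℂ)` with two non-commuting elements of transcendental traces; or `G` and `H₁(N; ℤ)` are finitely
generated and `G / N` is a subgroup of `SL₂(ℂ)` with two non-commuting elements the traces of which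
are not algebraic integers; or `G` is finitely generated and `N` is of finite index; or `N` is
characteristic; or `N` is the intersection of two such subgroups. -/
inductive Rigid {G : Type} [Group G] : Subgroup G → Prop
  | transcendental (N : Subgroup G) (hN : N.Normal) :
      Group.FG G → FinH1 ℚ N → Flexible ℚ (G ⧸ N) → Rigid N
  | nonintegral (N : Subgroup G) (hN : N.Normal) :
      Group.FG G → FinH1 ℤ N → Flexible ℤ (G ⧸ N) → Rigid N
  | finite (N : Subgroup G) (hN : N.Normal) : Group.FG G → N.FiniteIndex → Rigid N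
  | characteristic (N : Subgroup G) : N.Characteristic → Rigid N
  | inf (N N' : Subgroup G) : Rigid N → Rigid N' → Rigid (N ⊓ N')

theorem Rigid.finite_orbit {G : Type} [Group G] {N : Subgroup G} (h : Rigid N) :
    (Set.range fun φ : MulAut G => N.map φ.toMonoidHom).Finite := by
  induction h with
  | transcendental N hN hfg hfin hQ =>
    refine (finite_normal epi_rat G).subset ?_
    rintro _ ⟨φ, rfl⟩
    have hn : (N.map φ.toMonoidHom).Normal := hN.map _ φ.surjective
    exact ⟨hn, hfin.congr (N.equivMapOfInjective _ φ.injective),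
      hQ.congr (QuotientGroup.congr N (N.map φ.toMonoidHom) φ rfl)⟩
  | nonintegral N hN hfg hfin hQ =>
    refine (finite_normal epi_int G).subset ?_
    rintro _ ⟨φ, rfl⟩
    have hn : (N.map φ.toMonoidHom).Normal := hN.map _ φ.surjective
    exact ⟨hn, hfin.congr (N.equivMapOfInjective _ φ.injective),
      hQ.congr (QuotientGroup.congr N (N.map φ.toMonoidHom) φ rfl)⟩
  | finite N hN hfg hfi =>
    have hf : Finite (G ⧸ N) := Subgroup.finite_quotient_of_finiteIndex
    obtain ⟨n, hn⟩ : ∃ n, Nat.card (G ⧸ N) = n + 1 :=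
      Nat.exists_eq_succ_of_ne_zero Nat.card_pos.ne'
    refine (finite_normal_index (G := G) n).subset ?_
    rintro _ ⟨φ, rfl⟩
    have hn' : (N.map φ.toMonoidHom).Normal := hN.map _ φ.surjective
    refine ⟨hn', ?_⟩
    rw [← hn]
    exact (Nat.card_congr (QuotientGroup.congr N (N.map φ.toMonoidHom) φ rfl).toEquiv).symm
  | characteristic N hN =>
    refine (Set.finite_singleton N).subset ?_
    rintro _ ⟨φ, rfl⟩
    exact Subgroup.characteristic_iff_map_eq.1 hN φ
  | inf N N' _ _ h h' =>
    refine (h.image2 (fun A B => A ⊓ B) h').subset ?_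
    rintro _ ⟨φ, rfl⟩
    exact ⟨_, ⟨φ, rfl⟩, _, ⟨φ, rfl⟩, (Subgroup.map_inf N N' _ φ.injective).symm⟩

section

variable {C : ∀ (G : Type) [Group G], Prop} {G : Type} [Group G]

/-- **Extensions with rigid kernels.** -/
theorem step_rigid (hC : ClosedE C) (N : Subgroup G) [hN : N.Normal] (h : Rigid N)
    (h1 : CyclicExt C N) (h2 : CyclicExt C (G ⧸ N)) : CyclicExt C G := by
  intro φ
  exact C_finite_orbit hC φ N h.finite_orbit (fun k => ⟨φ ^ k, rfl⟩) h1 h2

end

/-- extensions of finitely generated groups -/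
theorem fg_of_ext {G : Type} [Group G] (N : Subgroup G) [N.Normal] (h1 : Group.FG N)
    (h2 : Group.FG (G ⧸ N)) : Group.FG G := by
  classical
  obtain ⟨S, hS⟩ := h1.out
  obtain ⟨T, hT⟩ := h2.out
  obtain ⟨K, hK⟩ : ∃ K : Subgroup G, K = Subgroup.closure
    ((S.image N.subtype ∪ T.image Quotient.out : Finset G) : Set G) := ⟨_, rfl⟩
  have hN : N ≤ K := by
    have h3 : (Subgroup.closure (S : Set N)).map N.subtype ≤ K := by
      rw [MonoidHom.map_closure, Subgroup.closure_le]
      rintro _ ⟨s, hs, rfl⟩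
      rw [hK]
      refine Subgroup.subset_closure ?_
      simp only [Finset.coe_union, Finset.coe_image, Set.mem_union, Set.mem_image]
      exact Or.inl ⟨s, hs, rfl⟩
    rw [hS] at h3
    intro x hx
    exact h3 ⟨⟨x, hx⟩, trivial, rfl⟩
  have hq : K.map (QuotientGroup.mk' N) = ⊤ := by
    rw [eq_top_iff, ← hT, Subgroup.closure_le]
    intro t ht
    refine ⟨Quotient.out t, ?_, QuotientGroup.out_eq' t⟩
    rw [hK]
    refine Subgroup.subset_closure ?_
    simp only [Finset.coe_union, Finset.coe_image, Set.mem_union, Set.mem_image]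
    exact Or.inr ⟨t, ht, rfl⟩
  have hKt : K = ⊤ := by
    rw [eq_top_iff]
    intro g _
    have h3 : QuotientGroup.mk' N g ∈ K.map (QuotientGroup.mk' N) := by rw [hq]; trivial
    obtain ⟨k, hk, hkg⟩ := h3
    have h4 : k⁻¹ * g ∈ N := QuotientGroup.eq.1 hkg
    have h5 := mul_mem hk (hN h4)
    rwa [mul_inv_cancel_left] at h5
  exact ⟨⟨_, hK.symm.trans hKt⟩⟩

section series

variable {C : ∀ (G : Type) [Group G], Prop} {Γ : Type} [Group Γ]

/-- **Subnormal series with rigid terms.** -/
theorem series (hC : ClosedE C) (n : ℕ) (H : ℕ → Subgroup Γ) (hle : ∀ i < n, H i ≤ H (i + 1))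
    (h0 : CyclicExt C (H 0))
    (hstep : ∀ i < n, Rigid ((H i).subgroupOf (H (i + 1))) ∧
      ∃ _ : ((H i).subgroupOf (H (i + 1))).Normal,
        CyclicExt C (H (i + 1) ⧸ (H i).subgroupOf (H (i + 1)))) : CyclicExt C (H n) := by
  have key : ∀ i ≤ n, CyclicExt C (H i) := by
    intro i
    induction i with
    | zero => exact fun _ => h0
    | succ i ih =>
      intro hi
      obtain ⟨h1, hn, h2⟩ := hstep i (by omega)
      exact step_rigid hC _ h1
        ((ih (by omega)).congr hC (Subgroup.subgroupOfEquivOfLe (hle i (by omega))).symm) h2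
  exact key n le_rfl

theorem series_main (hC : ClosedE C) (n : ℕ) (H : ℕ → Subgroup Γ) (hle : ∀ i < n, H i ≤ H (i + 1))
    (h0 : CyclicExt C (H 0))
    (hstep : ∀ i < n, Rigid ((H i).subgroupOf (H (i + 1))) ∧
      ∃ _ : ((H i).subgroupOf (H (i + 1))).Normal,
        CyclicExt C (H (i + 1) ⧸ (H i).subgroupOf (H (i + 1)))) [hn : (H n).Normal]
    (hQ : C (Γ ⧸ H n)) : C Γ :=
  C_of_normal hC (H n) (series hC n H hle h0 hstep) hQ

/-- **Subnormal series with factors finite or free.** -/
theorem series_free (hC : ClosedE C) (hF : ∀ r : ℕ, CyclicExt C (FreeGroup (Fin r)))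
    (n : ℕ) (H : ℕ → Subgroup Γ) (hle : ∀ i < n, H i ≤ H (i + 1)) (h0 : H 0 = ⊥)
    (hstep : ∀ i < n, ∃ _ : ((H i).subgroupOf (H (i + 1))).Normal,
      Finite (H (i + 1) ⧸ (H i).subgroupOf (H (i + 1))) ∨
      ∃ r ≥ 2, Nonempty (FreeGroup (Fin r) ≃* H (i + 1) ⧸ (H i).subgroupOf (H (i + 1))))
    [hn : (H n).Normal] (hQ : C (Γ ⧸ H n)) : C Γ := by
  have hfg : ∀ i ≤ n, Group.FG (H i) := by
    intro i
    induction i with
    | zero =>
      intro _
      rw [h0]
      infer_instance
    | succ i ih =>
      intro hi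
      obtain ⟨hn, h1⟩ := hstep i (by omega)
      refine fg_of_ext ((H i).subgroupOf (H (i + 1))) ?_ ?_
      · have h2 := ih (by omega)
        exact Group.fg_of_surjective
          (f := (Subgroup.subgroupOfEquivOfLe (hle i (by omega))).symm.toMonoidHom)
          (MulEquiv.surjective _)
      · rcases h1 with h1 | ⟨r, _, ⟨e⟩⟩
        · infer_instance
        · exact Group.fg_of_surjective (f := e.toMonoidHom) e.surjective
  refine series_main hC n H hle ?_ ?_ hQ
  · rw [h0]
    exact CyclicExt.of_finite hC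
  · intro i hi
    obtain ⟨hn, h1⟩ := hstep i hi
    have hfg1 := hfg (i + 1) (by omega)
    have hfg0 := hfg i (by omega)
    rcases h1 with h1 | ⟨r, hr, ⟨e⟩⟩
    · exact ⟨Rigid.finite _ hn hfg1 Subgroup.finiteIndex_of_finite_quotient, hn,
        CyclicExt.of_finite hC⟩
    · exact ⟨Rigid.transcendental _ hn hfg1 (FinH1.of_fg.congr
        (Subgroup.subgroupOfEquivOfLe (hle i (by omega))).symm) ((flexible_free r hr).congr e), hn,
        (hF r).congr hC e⟩

end series

end Pool.Agent.N509.RG
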