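import Pool.Agent.N509.RG.AutS

set_option autoImplicit false

/-!
# Automorphism groups and classes with the extension criterion of the Farrell-Jones conjecture
-/

namespace Pool.Agent.N509.RG

open Pool.Agent.Y110.FJ (ClosedE)

section class_lemmas

variable {C : ∀ (G : Type) [Group G], Prop} (hC : ClosedE C)
include hC

/-- images with the same kernel -/
theorem C_range_of_ker {A B D : Type} [Group A] [Group B] [Group D] (u : A →* B) (r : A →* D)
    (h1 : ∀ a, u a = 1 ↔ r a = 1) (h : C D) : C u.range := by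
  have hker : u.ker = r.ker := by
    ext a
    exact h1 a
  have h2 : C (A ⧸ r.ker) := hC.base.of_injective _ _ (QuotientGroup.kerLift r)
    (QuotientGroup.kerLift_injective _) h
  refine hC.base.of_injective _ _ (((QuotientGroup.quotientKerEquivRange u).symm.trans
    (QuotientGroup.quotientMulEquivOfEq hker)).toMonoidHom) (MulEquiv.injective _) h2

/-- The extension criterion for the image of a homomorphism `u`: `f` is a homomorphism the kernel of
which contains the kernel of `u`. -/
theorem C_range_ext {A B D : Type} [Group A] [Group B] [Group D] (u : A →* B)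
    (f : A →* D) (h1 : ∀ a, u a = 1 → f a = 1) (hD : C D) (h : C (f.ker.map u))
    (hcyc : ∀ a : A, (∀ n : ℕ, 0 < n → f (a ^ n) ≠ 1) → C ((f.ker ⊔ Subgroup.zpowers a).map u)) :
    C u.range := by
  obtain ⟨M, hM⟩ : ∃ M : Subgroup u.range, M = f.ker.map u.rangeRestrict := ⟨_, rfl⟩
  have hMn : M.Normal := by
    rw [hM]
    exact Subgroup.Normal.map inferInstance _ u.rangeRestrict_surjective
  have hsub : ∀ S : Subgroup A, C (S.map u) → C (S.map u.rangeRestrict) := by
    intro S hS
    refine hC.base.of_injective _ _ (MonoidHom.codRestrict (u.range.subtype.comp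
      (S.map u.rangeRestrict).subtype) (S.map u) ?_) ?_ hS
    · rintro ⟨x, hx⟩
      obtain ⟨a, ha, rfl⟩ := hx
      exact ⟨a, ha, rfl⟩
    · rintro ⟨x, hx⟩ ⟨y, hy⟩ hxy
      have h2 : (x : B) = y := congrArg (fun z : S.map u => (z : B)) hxy
      exact Subtype.ext (Subtype.ext h2)
  have hmem : ∀ a, u.rangeRestrict a ∈ M ↔ f a = 1 := by
    intro a
    rw [hM]
    constructor
    · rintro ⟨b, hb, hab⟩
      have h3 : u (b⁻¹ * a) = 1 := by
        have h4 : u b = u a := congrArg Subtype.val hab
        rw [map_mul, map_inv, h4, inv_mul_cancel]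
      have h5 := h1 _ h3
      rw [map_mul, map_inv, (MonoidHom.mem_ker).1 hb, inv_one, one_mul] at h5
      exact h5
    · intro ha
      exact ⟨a, ha, rfl⟩
  refine Pool.Agent.Y529.FJ.t_ext C hC u.range M ?_ ?_ ?_
  · rw [hM]
    exact hsub _ h
  · have h2 := C_range_of_ker hC ((QuotientGroup.mk' M).comp u.rangeRestrict) f (by
      intro a
      rw [MonoidHom.comp_apply, QuotientGroup.mk'_apply, QuotientGroup.eq_one_iff]
      exact hmem a) hD
    have h3 : ((QuotientGroup.mk' M).comp u.rangeRestrict).range = ⊤ :=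
      MonoidHom.range_eq_top.2 ((QuotientGroup.mk'_surjective M).comp u.rangeRestrict_surjective)
    rw [h3] at h2
    exact hC.base.of_injective _ _ Subgroup.topEquiv.symm.toMonoidHom (MulEquiv.injective _) h2
  · intro g hg
    obtain ⟨a, rfl⟩ := u.rangeRestrict_surjective g
    have h2 : M ⊔ Subgroup.zpowers (u.rangeRestrict a) =
        (f.ker ⊔ Subgroup.zpowers a).map u.rangeRestrict := by
      rw [Subgroup.map_sup, MonoidHom.map_zpowers, hM]
    rw [h2]
    refine hsub _ (hcyc a fun n hn h3 => hg n hn ?_)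
    rw [← map_pow]
    exact (hmem _).2 h3

end class_lemmas

section main

variable {C : ∀ (G : Type) [Group G], Prop} {G : Type} [Group G]

theorem C_aut (hC : ClosedE C) (N : Subgroup G) [N.Normal]
    (h : (Set.range fun φ : MulAut G => N.map φ.toMonoidHom).Finite)
    (hN : Subgroup.center N = ⊥) (h1 : C (MulAut N)) (h2 : C (MulAut (G ⧸ N))) : C (MulAut G) := by
  refine hC.base.finiteIndex _ (Stb N) (Stb_finiteIndex h) ?_
  refine hC.base.of_injective _ _ ((resN N).prod (quoN N)) ?_ (hC.base.prod _ _ h1 h2)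
  rw [injective_iff_map_eq_one]
  intro θ hθ
  exact eq_one_of N hN θ (congrArg Prod.fst hθ) (congrArg Prod.snd hθ)

theorem C_out (hC : ClosedE C) (N : Subgroup G) [N.Normal]
    (h : (Set.range fun φ : MulAut G => N.map φ.toMonoidHom).Finite)
    (hN : Subgroup.center N = ⊥) (hQ : Subgroup.center (G ⧸ N) = ⊥) (h1 : C (Out N))
    (h2' : C (MulAut (G ⧸ N))) (h2 : C (Out (G ⧸ N))) : C (Out G) := by
  obtain ⟨u, hu⟩ : ∃ u : Stb N →* Out G, u = (QuotientGroup.mk' _).comp (Stb N).subtype := ⟨_, rfl⟩
  obtain ⟨f, hf⟩ : ∃ f : Stb N →* Out (G ⧸ N), f = (QuotientGroup.mk' _).comp (quoN N) := ⟨_, rfl⟩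
  have hu1 : ∀ θ : Stb N, u θ = 1 ↔ ∃ g : G, MulAut.conj g = θ.1 := by
    intro θ
    rw [hu]
    exact QuotientGroup.eq_one_iff _
  have hf1 : ∀ θ : Stb N, f θ = 1 ↔ ∃ q : G ⧸ N, MulAut.conj q = quoN N θ := by
    intro θ
    rw [hf]
    exact QuotientGroup.eq_one_iff _
  have hconjq : ∀ (g : G), quoN N ⟨MulAut.conj g, conj_mem_Stb N g⟩ = MulAut.conj (g : G ⧸ N) := by
    intro g
    ext q
    obtain ⟨x, rfl⟩ := QuotientGroup.mk_surjective q
    rfl
  have hconjr : ∀ (n : N), resN N ⟨MulAut.conj n.1, conj_mem_Stb N n.1⟩ = MulAut.conj n := by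
    intro n
    ext x
    rfl
  have hconj1 : ∀ q : G ⧸ N, MulAut.conj q = 1 → q = 1 := by
    intro q hq
    have h5 : q ∈ Subgroup.center (G ⧸ N) := by
      rw [Subgroup.mem_center_iff]
      intro q'
      have h6 := DFunLike.congr_fun hq q'
      rw [MulAut.conj_apply] at h6
      change q * q' * q⁻¹ = q' at h6
      rw [mul_inv_eq_iff_eq_mul] at h6
      exact h6.symm
    rwa [hQ, Subgroup.mem_bot] at h5
  -- the image of the automorphisms whose action on the quotient is a power of the one of `θ₀`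
  have key : ∀ A' : Subgroup (Stb N), (∀ θ ∈ A', ∀ q : G ⧸ N, MulAut.conj q = quoN N θ → q = 1) →
      C (A'.map u) := by
    intro A' hA'
    have h3 : A'.map u = (u.comp A'.subtype).range := by
      rw [MonoidHom.range_comp, Subgroup.range_subtype]
    rw [h3]
    refine C_range_of_ker hC _ ((((QuotientGroup.mk' (MulAut.conj : N →* MulAut N).range).comp
      (resN N)).prod (quoN N)).comp A'.subtype) ?_ (hC.base.prod _ _ h1 h2')
    rintro ⟨θ, hθ⟩
    change u θ = 1 ↔ (((resN N θ : MulAut N) : Out N), quoN N θ) = 1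
    rw [hu1, Prod.mk_eq_one, QuotientGroup.eq_one_iff]
    constructor
    · rintro ⟨g, hg⟩
      have h4 : (⟨MulAut.conj g, conj_mem_Stb N g⟩ : Stb N) = θ := Subtype.ext hg
      have h5 : MulAut.conj (g : G ⧸ N) = quoN N θ := by rw [← hconjq, h4]
      have h6 := hA' θ hθ _ h5
      have h7 := (QuotientGroup.eq_one_iff g).1 h6
      refine ⟨⟨⟨g, h7⟩, ?_⟩, ?_⟩
      · rw [← hconjr]
        congr 1
      · rw [← h5, h6, map_one]
    · rintro ⟨⟨n, hn⟩, h5⟩
      refine ⟨n.1, ?_⟩
      have h4 : (⟨MulAut.conj n.1, conj_mem_Stb N n.1⟩ : Stb N)⁻¹ * θ = 1 := by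
        refine eq_one_of N hN _ ?_ ?_
        · rw [map_mul, map_inv, hconjr, hn, inv_mul_cancel]
        · rw [map_mul, map_inv, hconjq, h5, (QuotientGroup.eq_one_iff n.1).2 n.2, map_one,
            inv_one, mul_one]
      have h5 := inv_mul_eq_one.1 h4
      exact congrArg Subtype.val h5
  -- automorphisms inner on the quotient can be changed to ones trivial on it
  have hred : ∀ a : Stb N, (f.ker ⊔ Subgroup.zpowers a).map u =
      ((quoN N).ker ⊔ Subgroup.zpowers a).map u := by
    intro a
    rw [Subgroup.map_sup, Subgroup.map_sup]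
    congr 1
    apply le_antisymm
    · rintro _ ⟨θ, hθ, rfl⟩
      have h5 : f θ = 1 := hθ
      rw [hf1] at h5
      obtain ⟨q, hq⟩ := h5
      obtain ⟨g, rfl⟩ := QuotientGroup.mk_surjective q
      refine ⟨(⟨MulAut.conj g, conj_mem_Stb N g⟩ : Stb N)⁻¹ * θ, ?_, ?_⟩
      · change quoN N _ = 1
        rw [map_mul, map_inv, hconjq, hq, inv_mul_cancel]
      · rw [map_mul, map_inv, (hu1 _).2 ⟨g, rfl⟩, inv_one, one_mul]
    · refine Subgroup.map_mono ?_
      intro θ hθ
      have h5 : quoN N θ = 1 := hθ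
      change f θ = 1
      rw [hf, MonoidHom.comp_apply, h5, map_one]
  refine hC.base.finiteIndex _ u.range ?_ ?_
  · have hfi := Stb_finiteIndex h
    constructor
    have h3 : u.range = (Stb N).map (QuotientGroup.mk' _) := by
      rw [hu, MonoidHom.range_comp, Subgroup.range_subtype]
    rw [h3]
    exact fun h0 => hfi.index_ne_zero (Nat.eq_zero_of_zero_dvd
      (h0 ▸ Subgroup.index_map_dvd _ (QuotientGroup.mk'_surjective _)))
  · refine C_range_ext hC u f ?_ h2 ?_ ?_
    · intro θ hθ
      rw [hu1] at hθ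
      obtain ⟨g, hg⟩ := hθ
      rw [hf1]
      refine ⟨g, ?_⟩
      rw [← hconjq]
      congr 1
      exact Subtype.ext hg
    · have h3 := hred 1
      rw [Subgroup.zpowers_one_eq_bot, sup_bot_eq, sup_bot_eq] at h3
      rw [h3]
      refine key _ fun θ hθ q hq => hconj1 q ?_
      rw [hq]
      exact hθ
    · intro a ha
      rw [hred a]
      refine key _ fun θ hθ q hq => hconj1 q ?_
      rw [hq]
      have hz : ∃ z : ℤ, quoN N θ = quoN N a ^ z := by
        have h4 : ((quoN N).ker ⊔ Subgroup.zpowers a).map (quoN N) =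
            Subgroup.zpowers (quoN N a) := by
          rw [Subgroup.map_sup, MonoidHom.map_zpowers, (Subgroup.map_eq_bot_iff _).2 le_rfl,
            bot_sup_eq]
        have h5 : quoN N θ ∈ ((quoN N).ker ⊔ Subgroup.zpowers a).map (quoN N) := ⟨θ, hθ, rfl⟩
        rw [h4] at h5
        obtain ⟨z, hz⟩ := h5
        exact ⟨z, hz.symm⟩
      obtain ⟨z, hz⟩ := hz
      rw [hz]
      have h4 : f a ^ z = 1 := by
        rw [← map_zpow, hf1]
        refine ⟨q, ?_⟩
        rw [hq, hz, map_zpow]
      have hz0 : z = 0 := by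
        by_contra hne
        refine ha z.natAbs (Int.natAbs_pos.2 hne) ?_
        rw [map_pow]
        rcases Int.natAbs_eq z with h6 | h6
        · rw [h6, zpow_natCast] at h4
          exact h4
        · rw [h6, zpow_neg, zpow_natCast, inv_eq_one] at h4
          exact h4
      rw [hz0, zpow_zero]

variable {Γ : Type} [Group Γ]

theorem Good.congrC (hC : ClosedE C) {G H : Type} [Group G] [Group H] (e : G ≃* H)
    (h : Good C G) : Good C H :=
  ⟨center_congr e h.1, hC.base.of_injective _ _ (MulAut.congr e).symm.toMonoidHom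
      (MulEquiv.injective _) h.2.1,
    hC.base.of_injective _ _ (QuotientGroup.congr _ _ (MulAut.congr e) (inn_congr e)).symm.toMonoidHom
      (MulEquiv.injective _) h.2.2⟩

/-- **The main step** -/
theorem Good.extC (hC : ClosedE C) {G : Type} [Group G] (N : Subgroup G) [N.Normal] (hN : Rigid N)
    (h1 : Good C N) (h2 : Good C (G ⧸ N)) : Good C G :=
  ⟨center_ext N h1.1 h2.1, C_aut hC N hN.finite_orbit h1.1 h1.2.1 h2.2.1,
    C_out hC N hN.finite_orbit h1.1 h2.1 h1.2.2 h2.2.1 h2.2.2⟩

theorem good_seriesC (hC : ClosedE C) (n : ℕ) (H : ℕ → Subgroup Γ)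
    (hle : ∀ i < n, H i ≤ H (i + 1)) (h0 : Good C (H 0))
    (hstep : ∀ i < n, Rigid ((H i).subgroupOf (H (i + 1))) ∧
      ∃ _ : ((H i).subgroupOf (H (i + 1))).Normal,
        Good C (H (i + 1) ⧸ (H i).subgroupOf (H (i + 1)))) : Good C (H n) := by
  have key : ∀ i ≤ n, Good C (H i) := by
    intro i
    induction i with
    | zero => exact fun _ => h0
    | succ i ih =>
      intro hi
      obtain ⟨h1, hn, h2⟩ := hstep i (by omega)
      exact Good.extC hC _ h1
        ((ih (by omega)).congrC hC (Subgroup.subgroupOfEquivOfLe (hle i (by omega))).symm) h2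
  exact key n le_rfl

end main

end Pool.Agent.N509.RG
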