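import Pool.Agent.N509.RG.Fin

set_option autoImplicit false

/-!
# Automorphism groups and outer automorphism groups of extensions with rigid kernels
-/

namespace Pool.Agent.N509.RG

/-- A class of groups which contains the finite groups and is closed under subgroups (groups which
embed in a member) and extensions. -/
structure ExtClosed (X : ∀ (G : Type) [Group G], Prop) : Prop where
  finite : ∀ (G : Type) [Group G], Finite G → X G
  of_injective : ∀ (G H : Type) [Group G] [Group H] (f : G →* H), Function.Injective f → X H → X G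
  ext : ∀ (G : Type) [Group G] (N : Subgroup G) [N.Normal], X N → X (G ⧸ N) → X G

theorem inn_normal (G : Type) [Group G] : (MulAut.conj : G →* MulAut G).range.Normal := by
  constructor
  rintro _ ⟨g, rfl⟩ θ
  refine ⟨θ g, ?_⟩
  ext x
  simp [MulAut.conj_apply]

instance (G : Type) [Group G] : (MulAut.conj : G →* MulAut G).range.Normal := inn_normal G

/-- the outer automorphism group -/
abbrev Out (G : Type) [Group G] : Type := MulAut G ⧸ (MulAut.conj : G →* MulAut G).range

section class_lemmas

variable {X : ∀ (G : Type) [Group G], Prop} (hX : ExtClosed X)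
include hX

theorem ExtClosed.finiteIndex {G : Type} [Group G] (K : Subgroup G) (hK : K.FiniteIndex) (h : X K) :
    X G := by
  refine hX.ext G K.normalCore ?_ (hX.finite _ Subgroup.finite_quotient_of_finiteIndex)
  exact hX.of_injective _ _ (Subgroup.inclusion K.normalCore_le) (Subgroup.inclusion_injective _) h

theorem ExtClosed.prod {G H : Type} [Group G] [Group H] (h1 : X G) (h2 : X H) : X (G × H) := by
  refine hX.ext (G × H) (MonoidHom.snd G H).ker ?_ ?_
  · refine hX.of_injective _ _ ((MonoidHom.fst G H).comp (Subgroup.subtype _)) ?_ h1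
    rw [injective_iff_map_eq_one]
    rintro ⟨⟨a, b⟩, hb⟩ h
    apply Subtype.ext
    exact Prod.ext h hb
  · exact hX.of_injective _ _ (QuotientGroup.kerLift (MonoidHom.snd G H))
      (QuotientGroup.kerLift_injective _) h2

/-- images with the same kernel -/
theorem ExtClosed.range {A B D : Type} [Group A] [Group B] [Group D] (u : A →* B) (r : A →* D)
    (h1 : ∀ a, u a = 1 ↔ r a = 1) (h : X D) : X u.range := by
  have hker : u.ker = r.ker := by
    ext a
    exact h1 a
  have h2 : X (A ⧸ r.ker) := hX.of_injective _ _ (QuotientGroup.kerLift r)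
    (QuotientGroup.kerLift_injective _) h
  refine hX.of_injective _ _ (((QuotientGroup.quotientKerEquivRange u).symm.trans
    (QuotientGroup.quotientMulEquivOfEq hker)).toMonoidHom) (MulEquiv.injective _) h2

/-- images and kernels -/
theorem ExtClosed.range_of_ker {A B D : Type} [Group A] [Group B] [Group D] (u : A →* B)
    (f : A →* D) (h1 : ∀ a, u a = 1 → f a = 1) (hD : X D) (h : X (f.ker.map u)) : X u.range := by
  obtain ⟨M, hM⟩ : ∃ M : Subgroup u.range, M = f.ker.map u.rangeRestrict := ⟨_, rfl⟩
  have hMn : M.Normal := by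
    rw [hM]
    exact Subgroup.Normal.map inferInstance _ u.rangeRestrict_surjective
  refine hX.ext _ M ?_ ?_
  · refine hX.of_injective _ _ (MonoidHom.codRestrict (u.range.subtype.comp M.subtype)
      (f.ker.map u) ?_) ?_ h
    · rintro ⟨x, hx⟩
      rw [hM] at hx
      obtain ⟨a, ha, rfl⟩ := hx
      exact ⟨a, ha, rfl⟩
    · rintro ⟨x, hx⟩ ⟨y, hy⟩ hxy
      have h2 : (x : B) = y := congrArg (fun z : f.ker.map u => (z : B)) hxy
      exact Subtype.ext (Subtype.ext h2)
  · have h2 := hX.range ((QuotientGroup.mk' M).comp u.rangeRestrict) f (by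
      intro a
      rw [MonoidHom.comp_apply, QuotientGroup.mk'_apply, QuotientGroup.eq_one_iff, hM]
      constructor
      · rintro ⟨b, hb, hab⟩
        have h3 : u (b⁻¹ * a) = 1 := by
          have h4 : u b = u a := congrArg Subtype.val hab
          rw [map_mul, map_inv, h4, inv_mul_cancel]
        have h5 := h1 _ h3
        rw [map_mul, map_inv, (MonoidHom.mem_ker).1 hb, inv_one, one_mul] at h5
        exact h5
      · intro ha
        exact ⟨a, ha, rfl⟩) hD
    have h3 : ((QuotientGroup.mk' M).comp u.rangeRestrict).range = ⊤ :=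
      MonoidHom.range_eq_top.2 ((QuotientGroup.mk'_surjective M).comp u.rangeRestrict_surjective)
    rw [h3] at h2
    exact hX.of_injective _ _ Subgroup.topEquiv.symm.toMonoidHom (MulEquiv.injective _) h2

end class_lemmas

section stab

variable {G : Type} [Group G] (N : Subgroup G)

/-- the automorphisms preserving `N` -/
def Stb : Subgroup (MulAut G) where
  carrier := {θ | N.map θ.toMonoidHom = N}
  mul_mem' := by
    intro a b ha hb
    have h : (a * b).toMonoidHom = a.toMonoidHom.comp b.toMonoidHom := rfl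
    change N.map (a * b).toMonoidHom = N
    rw [h, ← Subgroup.map_map]
    change (N.map b.toMonoidHom).map a.toMonoidHom = N
    rw [show N.map b.toMonoidHom = N from hb, show N.map a.toMonoidHom = N from ha]
  one_mem' := Subgroup.map_id N
  inv_mem' := by
    intro a ha
    apply Subgroup.map_injective (f := a.toMonoidHom) a.injective
    change (N.map a⁻¹.toMonoidHom).map a.toMonoidHom = N.map a.toMonoidHom
    rw [Subgroup.map_map, show N.map a.toMonoidHom = N from ha]
    have h : a.toMonoidHom.comp a⁻¹.toMonoidHom = MonoidHom.id G := by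
      ext x
      change a (a⁻¹ x) = x
      rw [MulAut.apply_inv_self]
    rw [h, Subgroup.map_id]

variable {N}

theorem Stb_mem {θ : MulAut G} (hθ : θ ∈ Stb N) {n : G} (hn : n ∈ N) : θ n ∈ N := by
  have h : N.map θ.toMonoidHom = N := hθ
  rw [← h]
  exact ⟨n, hn, rfl⟩

theorem Stb_finiteIndex (h : (Set.range fun φ : MulAut G => N.map φ.toMonoidHom).Finite) :
    (Stb N).FiniteIndex := by
  have hf : Finite (Set.range fun φ : MulAut G => N.map φ.toMonoidHom) := h
  have hf2 : Finite (MulAut G ⧸ Stb N) := by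
    refine Finite.of_injective (β := Set.range fun φ : MulAut G => N.map φ.toMonoidHom)
      (Quotient.lift (fun θ => ⟨N.map θ.toMonoidHom, θ, rfl⟩) ?_) ?_
    · intro a b hab
      have h1 : a⁻¹ * b ∈ Stb N := QuotientGroup.leftRel_apply.1 hab
      apply Subtype.ext
      change N.map a.toMonoidHom = N.map b.toMonoidHom
      have h2 : N.map (a⁻¹ * b).toMonoidHom = N := h1
      have h3 : b.toMonoidHom = a.toMonoidHom.comp (a⁻¹ * b).toMonoidHom := by
        ext x
        change b x = (a * (a⁻¹ * b)) x
        rw [mul_inv_cancel_left]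
      rw [h3, ← Subgroup.map_map, h2]
    · intro q q'
      refine Quotient.inductionOn₂ q q' ?_
      intro a b hab
      have h1 : N.map a.toMonoidHom = N.map b.toMonoidHom := congrArg Subtype.val hab
      apply Quotient.sound
      apply QuotientGroup.leftRel_apply.2
      change N.map (a⁻¹ * b).toMonoidHom = N
      have h3 : (a⁻¹ * b).toMonoidHom = a⁻¹.toMonoidHom.comp b.toMonoidHom := rfl
      rw [h3, ← Subgroup.map_map]
      change (N.map b.toMonoidHom).map a⁻¹.toMonoidHom = N
      rw [← h1, Subgroup.map_map]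
      have h4 : a⁻¹.toMonoidHom.comp a.toMonoidHom = MonoidHom.id G := by
        ext x
        change a⁻¹ (a x) = x
        rw [MulAut.inv_apply_self]
      rw [h4, Subgroup.map_id]
  exact Subgroup.finiteIndex_of_finite_quotient

variable (N)

/-- restriction to `N` -/
def resN : Stb N →* MulAut N where
  toFun θ :=
    { toFun := fun n => ⟨θ.1 n, Stb_mem θ.2 n.2⟩
      invFun := fun n => ⟨θ.1⁻¹ n, Stb_mem (inv_mem θ.2) n.2⟩
      left_inv := fun n => Subtype.ext (MulAut.inv_apply_self _ θ.1 n)
      right_inv := fun n => Subtype.ext (MulAut.apply_inv_self _ θ.1 n)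
      map_mul' := fun n m => Subtype.ext (map_mul θ.1 _ _) }
  map_one' := by ext; rfl
  map_mul' θ θ' := by ext; rfl

theorem resN_apply (θ : Stb N) (n : N) : (resN N θ n : G) = θ.1 n := rfl

variable [N.Normal]

/-- the induced automorphism of the quotient -/
def quoN : Stb N →* MulAut (G ⧸ N) where
  toFun θ := QuotientGroup.congr N N θ.1 θ.2
  map_one' := by
    ext q
    obtain ⟨x, rfl⟩ := QuotientGroup.mk_surjective q
    rfl
  map_mul' θ θ' := by
    ext q
    obtain ⟨x, rfl⟩ := QuotientGroup.mk_surjective q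
    rfl

theorem quoN_apply (θ : Stb N) (x : G) : quoN N θ (QuotientGroup.mk x) = QuotientGroup.mk (θ.1 x) :=
  rfl

theorem conj_mem_Stb (g : G) : MulAut.conj g ∈ Stb N := by
  change N.map (MulAut.conj g).toMonoidHom = N
  ext x
  constructor
  · rintro ⟨n, hn, rfl⟩
    exact Subgroup.Normal.conj_mem ‹_› n hn g
  · intro hx
    refine ⟨g⁻¹ * x * g, ?_, ?_⟩
    · have h := Subgroup.Normal.conj_mem ‹_› x hx g⁻¹
      rwa [inv_inv] at h
    · change g * (g⁻¹ * x * g) * g⁻¹ = x
      group

/-- an automorphism trivial on `N` and `G / N` is trivial, if `N` has trivial centre -/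
theorem eq_one_of (hN : Subgroup.center N = ⊥) (θ : Stb N) (h1 : resN N θ = 1)
    (h2 : quoN N θ = 1) : θ = 1 := by
  apply Subtype.ext
  ext g
  have h3 : (QuotientGroup.mk (θ.1 g) : G ⧸ N) = QuotientGroup.mk g := by
    rw [← quoN_apply, h2]
    rfl
  have h4 : g⁻¹ * θ.1 g ∈ N := QuotientGroup.eq.1 h3.symm
  have h5 : ∀ n ∈ N, θ.1 n = n := by
    intro n hn
    have h6 := congrArg Subtype.val (DFunLike.congr_fun h1 ⟨n, hn⟩)
    exact h6
  have h6 : (⟨g⁻¹ * θ.1 g, h4⟩ : N) ∈ Subgroup.center N := by
    rw [Subgroup.mem_center_iff]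
    intro n
    apply Subtype.ext
    change n.1 * (g⁻¹ * θ.1 g) = g⁻¹ * θ.1 g * n.1
    have h7 := h5 (g * n.1 * g⁻¹) (Subgroup.Normal.conj_mem ‹_› n.1 n.2 g)
    rw [map_mul, map_mul, map_inv, h5 n.1 n.2] at h7
    have h8 : θ.1 g * n.1 = g * n.1 * g⁻¹ * θ.1 g := by
      rw [← h7]
      group
    rw [mul_assoc g⁻¹, h8]
    group
  rw [hN, Subgroup.mem_bot] at h6
  have h7 := congrArg Subtype.val h6
  change g⁻¹ * θ.1 g = 1 at h7
  change θ.1 g = g
  exact (inv_mul_eq_one.1 h7).symm

end stab

section main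

variable {X : ∀ (G : Type) [Group G], Prop} {G : Type} [Group G]

theorem X_aut (hX : ExtClosed X) (N : Subgroup G) [N.Normal]
    (h : (Set.range fun φ : MulAut G => N.map φ.toMonoidHom).Finite)
    (hN : Subgroup.center N = ⊥) (h1 : X (MulAut N)) (h2 : X (MulAut (G ⧸ N))) : X (MulAut G) := by
  refine hX.finiteIndex (Stb N) (Stb_finiteIndex h) ?_
  refine hX.of_injective _ _ ((resN N).prod (quoN N)) ?_ (hX.prod h1 h2)
  rw [injective_iff_map_eq_one]
  intro θ hθ
  exact eq_one_of N hN θ (congrArg Prod.fst hθ) (congrArg Prod.snd hθ)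

theorem X_out (hX : ExtClosed X) (N : Subgroup G) [N.Normal]
    (h : (Set.range fun φ : MulAut G => N.map φ.toMonoidHom).Finite)
    (hN : Subgroup.center N = ⊥) (hQ : Subgroup.center (G ⧸ N) = ⊥) (h1 : X (Out N))
    (h2 : X (Out (G ⧸ N))) : X (Out G) := by
  obtain ⟨u, hu⟩ : ∃ u : Stb N →* Out G, u = (QuotientGroup.mk' _).comp (Stb N).subtype := ⟨_, rfl⟩
  obtain ⟨f, hf⟩ : ∃ f : Stb N →* Out (G ⧸ N), f = (QuotientGroup.mk' _).comp (quoN N) := ⟨_, rfl⟩
  have hu1 : ∀ θ : Stb N, u θ = 1 ↔ ∃ g : G, MulAut.conj g = θ.1 := by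
    intro θ
    rw [hu]
    exact QuotientGroup.eq_one_iff _
  have hf1 : ∀ θ : Stb N, f θ = 1 ↔ ∃ q : G ⧸ N, MulAut.conj q = quoN N θ := by
    intro θ
    rw [hf]
    exact QuotientGroup.eq_one_iff _
  have hconjq : ∀ (g : G), quoN N ⟨MulAut.conj g, conj_mem_Stb N g⟩ = MulAut.conj (g : G ⧸ N) := by
    intro g
    ext q
    obtain ⟨x, rfl⟩ := QuotientGroup.mk_surjective q
    rfl
  have hconjr : ∀ (n : N), resN N ⟨MulAut.conj n.1, conj_mem_Stb N n.1⟩ = MulAut.conj n := by
    intro n
    ext x
    rfl
  refine hX.finiteIndex u.range ?_ ?_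
  · have hfi := Stb_finiteIndex h
    constructor
    have h3 : u.range = (Stb N).map (QuotientGroup.mk' _) := by
      rw [hu, MonoidHom.range_comp, Subgroup.range_subtype]
    rw [h3]
    exact fun h0 => hfi.index_ne_zero (Nat.eq_zero_of_zero_dvd
      (h0 ▸ Subgroup.index_map_dvd _ (QuotientGroup.mk'_surjective _)))
  · refine hX.range_of_ker u f ?_ h2 ?_
    · intro θ hθ
      rw [hu1] at hθ
      obtain ⟨g, hg⟩ := hθ
      rw [hf1]
      refine ⟨g, ?_⟩
      rw [← hconjq]
      congr 1
      exact Subtype.ext hg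
    · -- the automorphisms trivial on the quotient
      obtain ⟨u', hu'⟩ : ∃ u' : (quoN N).ker →* Out G, u' = u.comp (quoN N).ker.subtype := ⟨_, rfl⟩
      obtain ⟨r, hr⟩ : ∃ r : (quoN N).ker →* Out N,
        r = ((QuotientGroup.mk' _).comp (resN N)).comp (quoN N).ker.subtype := ⟨_, rfl⟩
      have hr1 : ∀ θ : (quoN N).ker, r θ = 1 ↔ ∃ n : N, MulAut.conj n = resN N θ.1 := by
        intro θ
        rw [hr]
        exact QuotientGroup.eq_one_iff _
      have h3 : X u'.range := by
        refine hX.range u' r ?_ h1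
        intro θ
        rw [hr1, hu']
        change u θ.1 = 1 ↔ _
        rw [hu1]
        constructor
        · rintro ⟨g, hg⟩
          have h4 : MulAut.conj (g : G ⧸ N) = 1 := by
            rw [← hconjq]
            have h5 : (⟨MulAut.conj g, conj_mem_Stb N g⟩ : Stb N) = θ.1 := Subtype.ext hg
            rw [h5]
            exact θ.2
          have h5 : (g : G ⧸ N) ∈ Subgroup.center (G ⧸ N) := by
            rw [Subgroup.mem_center_iff]
            intro q
            have h6 := DFunLike.congr_fun h4 q
            rw [MulAut.conj_apply] at h6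
            change (g : G ⧸ N) * q * (g : G ⧸ N)⁻¹ = q at h6
            rw [mul_inv_eq_iff_eq_mul] at h6
            exact h6.symm
          rw [hQ, Subgroup.mem_bot, QuotientGroup.eq_one_iff] at h5
          refine ⟨⟨g, h5⟩, ?_⟩
          rw [← hconjr]
          congr 1
          exact Subtype.ext hg
        · rintro ⟨n, hn⟩
          refine ⟨n.1, ?_⟩
          have h4 : (⟨MulAut.conj n.1, conj_mem_Stb N n.1⟩ : Stb N)⁻¹ * θ.1 = 1 := by
            refine eq_one_of N hN _ ?_ ?_
            · rw [map_mul, map_inv, hconjr, hn, inv_mul_cancel]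
            · have h5 : quoN N θ.1 = 1 := θ.2
              rw [map_mul, map_inv, hconjq, h5, (QuotientGroup.eq_one_iff n.1).2 n.2, map_one,
                inv_one, mul_one]
          have h5 := inv_mul_eq_one.1 h4
          exact congrArg Subtype.val h5
      have h4 : f.ker.map u = u'.range := by
        apply le_antisymm
        · rintro _ ⟨θ, hθ, rfl⟩
          have h5 : f θ = 1 := hθ
          rw [hf1] at h5
          obtain ⟨q, hq⟩ := h5
          obtain ⟨g, rfl⟩ := QuotientGroup.mk_surjective q
          refine ⟨⟨(⟨MulAut.conj g, conj_mem_Stb N g⟩ : Stb N)⁻¹ * θ, ?_⟩, ?_⟩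
          · change quoN N _ = 1
            rw [map_mul, map_inv, hconjq, hq, inv_mul_cancel]
          · rw [hu']
            change u (_ * θ) = u θ
            rw [map_mul, map_inv, (hu1 _).2 ⟨g, rfl⟩, inv_one, one_mul]
        · rintro _ ⟨θ, rfl⟩
          refine ⟨θ.1, ?_, by rw [hu']; rfl⟩
          change f θ.1 = 1
          rw [hf]
          have h5 : quoN N θ.1 = 1 := θ.2
          rw [MonoidHom.comp_apply, h5, map_one]
      rw [h4]
      exact h3

theorem center_ext (N : Subgroup G) [N.Normal] (hN : Subgroup.center N = ⊥)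
    (hQ : Subgroup.center (G ⧸ N) = ⊥) : Subgroup.center G = ⊥ := by
  rw [eq_bot_iff]
  intro z hz
  rw [Subgroup.mem_center_iff] at hz
  have h1 : (z : G ⧸ N) ∈ Subgroup.center (G ⧸ N) := by
    rw [Subgroup.mem_center_iff]
    intro q
    obtain ⟨x, rfl⟩ := QuotientGroup.mk_surjective q
    exact congrArg QuotientGroup.mk (hz x)
  rw [hQ, Subgroup.mem_bot, QuotientGroup.eq_one_iff] at h1
  have h2 : (⟨z, h1⟩ : N) ∈ Subgroup.center N := by
    rw [Subgroup.mem_center_iff]
    intro n
    exact Subtype.ext (hz n)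
  rw [hN, Subgroup.mem_bot] at h2
  exact congrArg Subtype.val h2

end main

end Pool.Agent.N509.RG
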