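import Pool.Agent.N509.RG.AutO

set_option autoImplicit false

/-!
# Automorphism groups of groups with subnormal series
-/

namespace Pool.Agent.N509.RG

section

variable {X : ∀ (G : Type) [Group G], Prop}

theorem X_congr (hX : ExtClosed X) {G H : Type} [Group G] [Group H] (e : G ≃* H) (h : X G) : X H :=
  hX.of_injective _ _ e.symm.toMonoidHom e.symm.injective h

theorem X_mulAut_congr (hX : ExtClosed X) {G H : Type} [Group G] [Group H] (e : G ≃* H)
    (h : X (MulAut G)) : X (MulAut H) :=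
  X_congr hX (MulAut.congr e) h

theorem inn_congr {G H : Type} [Group G] [Group H] (e : G ≃* H) :
    (MulAut.conj : G →* MulAut G).range.map (MulAut.congr e).toMonoidHom =
      (MulAut.conj : H →* MulAut H).range := by
  ext θ
  constructor
  · rintro ⟨_, ⟨g, rfl⟩, rfl⟩
    refine ⟨e g, ?_⟩
    ext x
    change e g * x * (e g)⁻¹ = e (g * e.symm x * g⁻¹)
    rw [map_mul, map_mul, map_inv, e.apply_symm_apply]
  · rintro ⟨h, rfl⟩
    refine ⟨MulAut.conj (e.symm h), ⟨_, rfl⟩, ?_⟩
    ext x
    change e (e.symm h * e.symm x * (e.symm h)⁻¹) = h * x * h⁻¹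
    rw [map_mul, map_mul, map_inv, e.apply_symm_apply, e.apply_symm_apply]

theorem X_out_congr (hX : ExtClosed X) {G H : Type} [Group G] [Group H] (e : G ≃* H)
    (h : X (Out G)) : X (Out H) :=
  X_congr hX (QuotientGroup.congr _ _ (MulAut.congr e) (inn_congr e)) h

theorem center_congr {G H : Type} [Group G] [Group H] (e : G ≃* H)
    (h : Subgroup.center G = ⊥) : Subgroup.center H = ⊥ := by
  rw [eq_bot_iff]
  intro z hz
  rw [Subgroup.mem_center_iff] at hz
  have h1 : e.symm z ∈ Subgroup.center G := by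
    rw [Subgroup.mem_center_iff]
    intro g
    apply e.injective
    rw [map_mul, map_mul, e.apply_symm_apply]
    exact hz (e g)
  rw [h, Subgroup.mem_bot] at h1
  rw [Subgroup.mem_bot]
  have h2 := congrArg e h1
  rwa [e.apply_symm_apply, map_one] at h2

/-- the condition for the induction -/
def Good (X : ∀ (G : Type) [Group G], Prop) (G : Type) [Group G] : Prop :=
  Subgroup.center G = ⊥ ∧ X (MulAut G) ∧ X (Out G)

theorem Good.congr (hX : ExtClosed X) {G H : Type} [Group G] [Group H] (e : G ≃* H)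
    (h : Good X G) : Good X H :=
  ⟨center_congr e h.1, X_mulAut_congr hX e h.2.1, X_out_congr hX e h.2.2⟩

theorem Good.of_subsingleton (hX : ExtClosed X) {G : Type} [Group G] [Subsingleton G] :
    Good X G := by
  refine ⟨Subsingleton.elim _ _, hX.finite _ ?_, hX.finite _ ?_⟩
  · exact Finite.of_injective (fun θ : MulAut G => (θ : G → G)) DFunLike.coe_injective
  · have : Finite (MulAut G) :=
      Finite.of_injective (fun θ : MulAut G => (θ : G → G)) DFunLike.coe_injective
    exact Quotient.finite _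

/-- **The main step** -/
theorem Good.ext (hX : ExtClosed X) {G : Type} [Group G] (N : Subgroup G) [N.Normal] (hN : Rigid N)
    (h1 : Good X N) (h2 : Good X (G ⧸ N)) : Good X G :=
  ⟨center_ext N h1.1 h2.1, X_aut hX N hN.finite_orbit h1.1 h1.2.1 h2.2.1,
    X_out hX N hN.finite_orbit h1.1 h2.1 h1.2.2 h2.2.2⟩

variable {Γ : Type} [Group Γ]

theorem good_series (hX : ExtClosed X) (n : ℕ) (H : ℕ → Subgroup Γ)
    (hle : ∀ i < n, H i ≤ H (i + 1)) (h0 : Good X (H 0))
    (hstep : ∀ i < n, Rigid ((H i).subgroupOf (H (i + 1))) ∧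
      ∃ _ : ((H i).subgroupOf (H (i + 1))).Normal,
        Good X (H (i + 1) ⧸ (H i).subgroupOf (H (i + 1)))) : Good X (H n) := by
  have key : ∀ i ≤ n, Good X (H i) := by
    intro i
    induction i with
    | zero => exact fun _ => h0
    | succ i ih =>
      intro hi
      obtain ⟨h1, hn, h2⟩ := hstep i (by omega)
      exact Good.ext hX _ h1
        ((ih (by omega)).congr hX (Subgroup.subgroupOfEquivOfLe (hle i (by omega))).symm) h2
  exact key n le_rfl

theorem center_free (r : ℕ) (hr : 2 ≤ r) : Subgroup.center (FreeGroup (Fin r)) = ⊥ := by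
  obtain ⟨σ, hσ, g, h, hgh, -, -⟩ := flexible_free r hr
  rw [eq_bot_iff]
  intro z hz
  rw [Subgroup.mem_center_iff] at hz
  obtain ⟨v, hv⟩ : ∃ v : Matrix (Fin 2) (Fin 2) ℂ, v = (σ z).1 := ⟨_, rfl⟩
  obtain ⟨c, hc⟩ : ∃ c : ℂ, c = v.trace / 2 := ⟨_, rfl⟩
  have hcomm : ∀ x, (σ x).1 * (v - c • (1 : Matrix (Fin 2) (Fin 2) ℂ)) =
      (v - c • (1 : Matrix (Fin 2) (Fin 2) ℂ)) * (σ x).1 := by
    intro x
    have h1 : (σ x).1 * v = v * (σ x).1 := by
      rw [hv]
      have h2 := congrArg (fun y => (σ y).1) (hz x)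
      simp only [map_mul] at h2
      exact h2
    rw [mul_sub, sub_mul, h1, mul_smul_comm, smul_mul_assoc, mul_one, one_mul]
  have hXY : (σ g).1 * (σ h).1 ≠ (σ h).1 * (σ g).1 := by
    intro h1
    apply hgh
    apply hσ
    rw [map_mul, map_mul]
    exact Subtype.ext h1
  have h0 := eq_zero_of_commute two_ne_zero hXY (hcomm g) (hcomm h) (by
    rw [Matrix.trace_sub, Matrix.trace_smul, Matrix.trace_one, Fintype.card_fin, hc, smul_eq_mul]
    push_cast
    ring)
  have h1 : v = c • (1 : Matrix (Fin 2) (Fin 2) ℂ) := sub_eq_zero.1 h0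
  have h2 : c * c = 1 := by
    have h3 := (σ z).2
    rw [← hv, h1, Matrix.det_fin_two] at h3
    simpa using h3
  have h3 : σ (z ^ 2) = 1 := by
    rw [map_pow, sq]
    apply Subtype.ext
    change (σ z).1 * (σ z).1 = 1
    rw [← hv, h1, smul_mul_smul_comm, h2, one_smul, one_mul]
  have h4 : z ^ 2 = 1 := (injective_iff_map_eq_one σ).1 hσ _ h3
  exact (pow_eq_one_iff_left two_ne_zero).1 h4

theorem good_series_free (hX : ExtClosed X)
    (hF : ∀ r ≥ 2, X (MulAut (FreeGroup (Fin r))) ∧ X (Out (FreeGroup (Fin r))))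
    (n : ℕ) (H : ℕ → Subgroup Γ) (hle : ∀ i < n, H i ≤ H (i + 1)) (h0 : H 0 = ⊥)
    (hstep : ∀ i < n, ∃ _ : ((H i).subgroupOf (H (i + 1))).Normal,
      ∃ r ≥ 2, Nonempty (FreeGroup (Fin r) ≃* H (i + 1) ⧸ (H i).subgroupOf (H (i + 1)))) :
    Good X (H n) := by
  have hfg : ∀ i ≤ n, Group.FG (H i) := by
    intro i
    induction i with
    | zero =>
      intro _
      rw [h0]
      infer_instance
    | succ i ih =>
      intro hi
      obtain ⟨hn, r, _, ⟨e⟩⟩ := hstep i (by omega)
      refine fg_of_ext ((H i).subgroupOf (H (i + 1))) ?_ ?_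
      · have h2 := ih (by omega)
        exact Group.fg_of_surjective
          (f := (Subgroup.subgroupOfEquivOfLe (hle i (by omega))).symm.toMonoidHom)
          (MulEquiv.surjective _)
      · exact Group.fg_of_surjective (f := e.toMonoidHom) e.surjective
  refine good_series hX n H hle ?_ ?_
  · rw [h0]
    exact Good.of_subsingleton hX
  · intro i hi
    obtain ⟨hn, r, hr, ⟨e⟩⟩ := hstep i hi
    have hfg1 := hfg (i + 1) (by omega)
    have hfg0 := hfg i (by omega)
    exact ⟨Rigid.transcendental _ hn hfg1 (FinH1.of_fg.congr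
        (Subgroup.subgroupOfEquivOfLe (hle i (by omega))).symm) ((flexible_free r hr).congr e), hn,
        Good.congr hX e ⟨center_free r hr, (hF r hr).1, (hF r hr).2⟩⟩

end

end Pool.Agent.N509.RG
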