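import Pool.Agent.N509.RG.AutF

set_option autoImplicit false

/-!
# Automorphism groups and classes closed under extensions and abelian quotients
-/

namespace Pool.Agent.N509.RG

/-- A class of groups which contains the finite groups and the abelian groups and is closed under
subgroups, extensions and quotients by abelian normal subgroups. -/
structure AbClosed (X : ∀ (G : Type) [Group G], Prop) : Prop extends ExtClosed X where
  comm : ∀ (G : Type) [Group G], (∀ a b : G, a * b = b * a) → X G
  quot : ∀ (G : Type) [Group G] (N : Subgroup G) [N.Normal], (∀ a ∈ N, ∀ b ∈ N, a * b = b * a) →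
    X G → X (G ⧸ N)

section

variable {X : ∀ (G : Type) [Group G], Prop}

/-- Two images of a group: if `r.range` is in the class and `r (ker u)` and `u (ker r)` are abelian,
then `u.range` is in the class. -/
theorem AbClosed.range_two (hX : AbClosed X) {A B D : Type} [Group A] [Group B] [Group D]
    (u : A →* B) (r : A →* D) (h : X D)
    (h1 : ∀ a, r a = 1 → ∀ b, r b = 1 → u a * u b = u b * u a)
    (h2 : ∀ a, u a = 1 → ∀ b, u b = 1 → r a * r b = r b * r a) : X u.range := by
  obtain ⟨M, hM⟩ : ∃ M : Subgroup u.range, M = r.ker.map u.rangeRestrict := ⟨_, rfl⟩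
  obtain ⟨P, hP⟩ : ∃ P : Subgroup r.range, P = u.ker.map r.rangeRestrict := ⟨_, rfl⟩
  have hMn : M.Normal := by
    rw [hM]
    exact Subgroup.Normal.map inferInstance _ u.rangeRestrict_surjective
  have hPn : P.Normal := by
    rw [hP]
    exact Subgroup.Normal.map inferInstance _ r.rangeRestrict_surjective
  have hMa : ∀ a ∈ M, ∀ b ∈ M, a * b = b * a := by
    rw [hM]
    rintro _ ⟨a, ha, rfl⟩ _ ⟨b, hb, rfl⟩
    exact Subtype.ext (h1 a ha b hb)
  have hPa : ∀ a ∈ P, ∀ b ∈ P, a * b = b * a := by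
    rw [hP]
    rintro _ ⟨a, ha, rfl⟩ _ ⟨b, hb, rfl⟩
    exact Subtype.ext (h2 a ha b hb)
  have hmemM : ∀ a, u.rangeRestrict a ∈ M ↔ ∃ b, r b = 1 ∧ u (b⁻¹ * a) = 1 := by
    intro a
    rw [hM]
    constructor
    · rintro ⟨b, hb, hab⟩
      refine ⟨b, hb, ?_⟩
      have h4 : u b = u a := congrArg Subtype.val hab
      rw [map_mul, map_inv, h4, inv_mul_cancel]
    · rintro ⟨b, hb, hab⟩
      refine ⟨b, hb, Subtype.ext ?_⟩
      rw [map_mul, map_inv, inv_mul_eq_one] at hab
      exact hab
  have hmemP : ∀ a, r.rangeRestrict a ∈ P ↔ ∃ b, u b = 1 ∧ r (b⁻¹ * a) = 1 := by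
    intro a
    rw [hP]
    constructor
    · rintro ⟨b, hb, hab⟩
      refine ⟨b, hb, ?_⟩
      have h4 : r b = r a := congrArg Subtype.val hab
      rw [map_mul, map_inv, h4, inv_mul_cancel]
    · rintro ⟨b, hb, hab⟩
      refine ⟨b, hb, Subtype.ext ?_⟩
      rw [map_mul, map_inv, inv_mul_eq_one] at hab
      exact hab
  have hr : X r.range := hX.of_injective _ _ r.range.subtype r.range.subtype_injective h
  have hrP : X (r.range ⧸ P) := hX.quot _ P hPa hr
  refine hX.ext _ M (hX.comm _ ?_) ?_
  · rintro ⟨a, ha⟩ ⟨b, hb⟩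
    exact Subtype.ext (hMa a ha b hb)
  · have h3 := hX.toExtClosed.range ((QuotientGroup.mk' M).comp u.rangeRestrict)
      ((QuotientGroup.mk' P).comp r.rangeRestrict) (by
        intro a
        rw [MonoidHom.comp_apply, MonoidHom.comp_apply, QuotientGroup.mk'_apply,
          QuotientGroup.mk'_apply, QuotientGroup.eq_one_iff, QuotientGroup.eq_one_iff, hmemM,
          hmemP]
        constructor
        · rintro ⟨b, hb, hab⟩
          rw [map_mul, map_inv, inv_mul_eq_one] at hab
          refine ⟨a * b⁻¹, ?_, ?_⟩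
          · rw [map_mul, map_inv, hab, mul_inv_cancel]
          · rw [mul_inv_rev, inv_inv, inv_mul_cancel_right, hb]
        · rintro ⟨b, hb, hab⟩
          rw [map_mul, map_inv, inv_mul_eq_one] at hab
          refine ⟨a * b⁻¹, ?_, ?_⟩
          · rw [map_mul, map_inv, hab, mul_inv_cancel]
          · rw [mul_inv_rev, inv_inv, inv_mul_cancel_right, hb]) hrP
    have h4 : ((QuotientGroup.mk' M).comp u.rangeRestrict).range = ⊤ :=
      MonoidHom.range_eq_top.2 ((QuotientGroup.mk'_surjective M).comp u.rangeRestrict_surjective)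
    rw [h4] at h3
    exact hX.of_injective _ _ Subgroup.topEquiv.symm.toMonoidHom (MulEquiv.injective _) h3

variable {G : Type} [Group G]

/-- automorphisms trivial on `N` and `G / N` commute -/
theorem ker_comm (N : Subgroup G) [N.Normal] {θ θ' : Stb N} (h1 : resN N θ = 1)
    (h2 : quoN N θ = 1) (h1' : resN N θ' = 1) (h2' : quoN N θ' = 1) : θ * θ' = θ' * θ := by
  apply Subtype.ext
  ext g
  obtain ⟨z, hz, hzg⟩ := mem_center_of N θ h1 h2 g
  obtain ⟨z', hz', hzg'⟩ := mem_center_of N θ' h1' h2' g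
  have h3 : ∀ n : N, θ.1 n = n := fun n => congrArg Subtype.val (DFunLike.congr_fun h1 n)
  have h4 : ∀ n : N, θ'.1 n = n := fun n => congrArg Subtype.val (DFunLike.congr_fun h1' n)
  have h5 : θ.1 g = g * z := by rw [hzg]; group
  have h6 : θ'.1 g = g * z' := by rw [hzg']; group
  change θ.1 (θ'.1 g) = θ'.1 (θ.1 g)
  rw [h6, map_mul, h5, h3, map_mul, h6, h4, mul_assoc, mul_assoc]
  congr 1
  exact congrArg Subtype.val ((Subgroup.mem_center_iff.1 hz z').symm)

theorem AbClosed.aut (hX : AbClosed X) (N : Subgroup G) [N.Normal]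
    (h : (Set.range fun φ : MulAut G => N.map φ.toMonoidHom).Finite)
    (h1 : X (MulAut N)) (h2 : X (MulAut (G ⧸ N))) : X (MulAut G) := by
  refine hX.toExtClosed.finiteIndex (Stb N) (Stb_finiteIndex h) ?_
  refine hX.ext _ ((resN N).prod (quoN N)).ker (hX.comm _ ?_) ?_
  · rintro ⟨θ, hθ⟩ ⟨θ', hθ'⟩
    exact Subtype.ext (ker_comm N (congrArg Prod.fst hθ) (congrArg Prod.snd hθ)
      (congrArg Prod.fst hθ') (congrArg Prod.snd hθ'))
  · exact hX.of_injective _ _ (QuotientGroup.kerLift _) (QuotientGroup.kerLift_injective _)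
      (hX.toExtClosed.prod h1 h2)

theorem AbClosed.out (hX : AbClosed X) (N : Subgroup G) [N.Normal]
    (h : (Set.range fun φ : MulAut G => N.map φ.toMonoidHom).Finite)
    (h1 : X (Out N)) (h2 : X (Out (G ⧸ N))) : X (Out G) := by
  obtain ⟨u, hu⟩ : ∃ u : Stb N →* Out G, u = (QuotientGroup.mk' _).comp (Stb N).subtype := ⟨_, rfl⟩
  obtain ⟨f, hf⟩ : ∃ f : Stb N →* Out (G ⧸ N), f = (QuotientGroup.mk' _).comp (quoN N) := ⟨_, rfl⟩
  have hu1 : ∀ θ : Stb N, u θ = 1 ↔ ∃ g : G, MulAut.conj g = θ.1 := by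
    intro θ
    rw [hu]
    exact QuotientGroup.eq_one_iff _
  have hf1 : ∀ θ : Stb N, f θ = 1 ↔ ∃ q : G ⧸ N, MulAut.conj q = quoN N θ := by
    intro θ
    rw [hf]
    exact QuotientGroup.eq_one_iff _
  have hconjq : ∀ (g : G), quoN N ⟨MulAut.conj g, conj_mem_Stb N g⟩ = MulAut.conj (g : G ⧸ N) := by
    intro g
    ext q
    obtain ⟨x, rfl⟩ := QuotientGroup.mk_surjective q
    rfl
  have hconjr : ∀ (n : N), resN N ⟨MulAut.conj n.1, conj_mem_Stb N n.1⟩ = MulAut.conj n := by
    intro n
    ext x
    rfl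
  refine hX.toExtClosed.finiteIndex u.range ?_ ?_
  · have hfi := Stb_finiteIndex h
    constructor
    have h3 : u.range = (Stb N).map (QuotientGroup.mk' _) := by
      rw [hu, MonoidHom.range_comp, Subgroup.range_subtype]
    rw [h3]
    exact fun h0 => hfi.index_ne_zero (Nat.eq_zero_of_zero_dvd
      (h0 ▸ Subgroup.index_map_dvd _ (QuotientGroup.mk'_surjective _)))
  · refine hX.toExtClosed.range_of_ker u f ?_ h2 ?_
    · intro θ hθ
      rw [hu1] at hθ
      obtain ⟨g, hg⟩ := hθ
      rw [hf1]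
      refine ⟨g, ?_⟩
      rw [← hconjq]
      congr 1
      exact Subtype.ext hg
    · -- the automorphisms trivial on the quotient
      obtain ⟨u', hu'⟩ : ∃ u' : (quoN N).ker →* Out G, u' = u.comp (quoN N).ker.subtype := ⟨_, rfl⟩
      obtain ⟨r, hr⟩ : ∃ r : (quoN N).ker →* Out N,
        r = ((QuotientGroup.mk' _).comp (resN N)).comp (quoN N).ker.subtype := ⟨_, rfl⟩
      have hr1 : ∀ θ : (quoN N).ker, r θ = 1 ↔ ∃ n : N, MulAut.conj n = resN N θ.1 := by
        intro θ
        rw [hr]
        exact QuotientGroup.eq_one_iff _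
      have h3 : X u'.range := by
        refine hX.range_two u' r h1 ?_ ?_
        · -- the images in `Out G` of automorphisms inner on `N` commute
          have h5 : ∀ θ : (quoN N).ker, r θ = 1 → ∃ η : Stb N, resN N η = 1 ∧ quoN N η = 1 ∧
              u' θ = u η := by
            intro θ hθ
            rw [hr1] at hθ
            obtain ⟨n, hn⟩ := hθ
            have h6 : quoN N θ.1 = 1 := θ.2
            refine ⟨(⟨MulAut.conj n.1, conj_mem_Stb N n.1⟩ : Stb N)⁻¹ * θ.1, ?_, ?_, ?_⟩
            · rw [map_mul, map_inv, hconjr, hn, inv_mul_cancel]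
            · rw [map_mul, map_inv, hconjq, h6, (QuotientGroup.eq_one_iff n.1).2 n.2, map_one,
                inv_one, mul_one]
            · rw [map_mul, map_inv, (hu1 _).2 ⟨n.1, rfl⟩, inv_one, one_mul, hu']
              rfl
          intro a ha b hb
          obtain ⟨η, h6, h7, h8⟩ := h5 a ha
          obtain ⟨η', h6', h7', h8'⟩ := h5 b hb
          rw [h8, h8', ← map_mul, ← map_mul, ker_comm N h6 h7 h6' h7']
        · -- the images in `Out N` of the inner automorphisms trivial on the quotient commute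
          have h5 : ∀ θ : (quoN N).ker, u' θ = 1 → ∃ g : G, MulAut.conj g = θ.1.1 := by
            intro θ hθ
            rw [hu'] at hθ
            exact (hu1 _).1 hθ
          intro a ha b hb
          obtain ⟨g, hg⟩ := h5 a ha
          obtain ⟨g', hg'⟩ := h5 b hb
          have h6 : (g * g' * g⁻¹ * g'⁻¹ : G) ∈ N := by
            have h7 : quoN N a.1 = 1 := a.2
            have h8 : (⟨MulAut.conj g, conj_mem_Stb N g⟩ : Stb N) = a.1 := Subtype.ext hg
            rw [← h8, hconjq] at h7
            have h9 := DFunLike.congr_fun h7 (g' : G ⧸ N)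
            change (g : G ⧸ N) * (g' : G ⧸ N) * (g : G ⧸ N)⁻¹ = (g' : G ⧸ N) at h9
            rw [← QuotientGroup.eq_one_iff]
            change (g : G ⧸ N) * (g' : G ⧸ N) * (g : G ⧸ N)⁻¹ * (g' : G ⧸ N)⁻¹ = 1
            rw [h9, mul_inv_cancel]
          rw [← mul_inv_eq_one, mul_inv_rev, ← map_mul, ← map_inv, ← map_inv, ← map_mul,
            ← map_mul, hr1]
          refine ⟨⟨_, h6⟩, ?_⟩
          rw [← hconjr]
          congr 1
          apply Subtype.ext
          change MulAut.conj (g * g' * g⁻¹ * g'⁻¹) = a.1.1 * b.1.1 * (a.1.1⁻¹ * b.1.1⁻¹)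
          rw [← hg, ← hg']
          simp only [map_mul, map_inv]
          group
      have h4 : f.ker.map u = u'.range := by
        apply le_antisymm
        · rintro _ ⟨θ, hθ, rfl⟩
          have h5 : f θ = 1 := hθ
          rw [hf1] at h5
          obtain ⟨q, hq⟩ := h5
          obtain ⟨g, rfl⟩ := QuotientGroup.mk_surjective q
          refine ⟨⟨(⟨MulAut.conj g, conj_mem_Stb N g⟩ : Stb N)⁻¹ * θ, ?_⟩, ?_⟩
          · change quoN N _ = 1
            rw [map_mul, map_inv, hconjq, hq, inv_mul_cancel]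
          · rw [hu']
            change u (_ * θ) = u θ
            rw [map_mul, map_inv, (hu1 _).2 ⟨g, rfl⟩, inv_one, one_mul]
        · rintro _ ⟨θ, rfl⟩
          refine ⟨θ.1, ?_, by rw [hu']; rfl⟩
          change f θ.1 = 1
          rw [hf]
          have h5 : quoN N θ.1 = 1 := θ.2
          rw [MonoidHom.comp_apply, h5, map_one]
      rw [h4]
      exact h3

/-- automorphism group and outer automorphism group in the class -/
def AutOut (X : ∀ (G : Type) [Group G], Prop) (G : Type) [Group G] : Prop :=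
  X (MulAut G) ∧ X (Out G)

theorem AutOut.congr (hX : AbClosed X) {G H : Type} [Group G] [Group H] (e : G ≃* H)
    (h : AutOut X G) : AutOut X H :=
  ⟨X_mulAut_congr hX.toExtClosed e h.1, X_out_congr hX.toExtClosed e h.2⟩

theorem AutOut.of_finite (hX : AbClosed X) [Finite G] : AutOut X G := by
  have h1 : Finite (MulAut G) :=
    Finite.of_injective (fun θ : MulAut G => (θ : G → G)) DFunLike.coe_injective
  exact ⟨hX.finite _ h1, hX.finite _ (Quotient.finite _)⟩

variable {Γ : Type} [Group Γ]

theorem autOut_series (hX : AbClosed X) (n : ℕ) (H : ℕ → Subgroup Γ)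
    (hle : ∀ i < n, H i ≤ H (i + 1)) (h0 : AutOut X (H 0))
    (hstep : ∀ i < n, Rigid ((H i).subgroupOf (H (i + 1))) ∧
      ∃ _ : ((H i).subgroupOf (H (i + 1))).Normal,
        AutOut X (H (i + 1) ⧸ (H i).subgroupOf (H (i + 1)))) : AutOut X (H n) := by
  have key : ∀ i ≤ n, AutOut X (H i) := by
    intro i
    induction i with
    | zero => exact fun _ => h0
    | succ i ih =>
      intro hi
      obtain ⟨h1, hn, h2⟩ := hstep i (by omega)
      have h3 := (ih (by omega)).congr hX (Subgroup.subgroupOfEquivOfLe (hle i (by omega))).symm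
      exact ⟨hX.aut _ h1.finite_orbit h3.1 h2.1, hX.out _ h1.finite_orbit h3.2 h2.2⟩
  exact key n le_rfl

/-- the group itself -/
theorem AbClosed.self (hX : AbClosed X) (h : X (MulAut G)) : X G := by
  refine hX.ext _ (MulAut.conj : G →* MulAut G).ker (hX.comm _ ?_) ?_
  · rintro ⟨a, ha⟩ ⟨b, hb⟩
    apply Subtype.ext
    have h1 : MulAut.conj a = 1 := ha
    have h2 := DFunLike.congr_fun h1 b
    rw [MulAut.conj_apply] at h2
    change a * b * a⁻¹ = b at h2
    change a * b = b * a
    rwa [mul_inv_eq_iff_eq_mul] at h2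
  · exact hX.of_injective _ _ (QuotientGroup.kerLift _) (QuotientGroup.kerLift_injective _) h

end

end Pool.Agent.N509.RG
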