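import Pool.Agent.N509.RG.Rep
import Pool.Agent.Y529.FJ.Ext

set_option autoImplicit false

/-!
# Groups all cyclic extensions of which are in the class
-/

namespace Pool.Agent.N509.RG

open Pool.Agent.Y110.FJ (ClosedE)

/-- All semidirect products `G ⋊ ℤ` are in `C`. -/
def CyclicExt (C : ∀ (G : Type) [Group G], Prop) (G : Type) [Group G] : Prop :=
  ∀ φ : MulAut G, C (G ⋊[zpowersHom (MulAut G) φ] Multiplicative ℤ)

section

variable {C : ∀ (G : Type) [Group G], Prop} {G : Type} [Group G]

theorem CyclicExt.self (hC : ClosedE C) (h : CyclicExt C G) : C G :=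
  hC.base.of_injective _ _ (SemidirectProduct.inl : G →* G ⋊[zpowersHom (MulAut G) 1] Multiplicative ℤ)
    SemidirectProduct.inl_injective (h 1)

theorem C_range (hC : ClosedE C) {H E : Type} [Group H] [Group E] (f : H →* E)
    (hf : Function.Injective f) (h : C H) : C f.range :=
  hC.base.of_injective _ _ (MonoidHom.ofInjective hf).symm.toMonoidHom (MulEquiv.injective _) h

/-- the internal form -/
theorem CyclicExt.internal (hC : ClosedE C) (h : CyclicExt C G) {E : Type} [Group E] (j : G →* E)
    (hj : Function.Injective j) (hn : j.range.Normal) (g : E)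
    (hg : ∀ n : ℕ, 0 < n → g ^ n ∉ j.range) : C ↥(j.range ⊔ Subgroup.zpowers g) := by
  obtain ⟨e, he⟩ : ∃ e : G ≃* j.range, e = MonoidHom.ofInjective hj := ⟨_, rfl⟩
  have hej : ∀ x, (e x : E) = j x := fun x => by rw [he]; rfl
  obtain ⟨φ, hφ⟩ : ∃ φ : MulAut G, φ = (e.trans (MulAut.conjNormal (H := j.range) g)).trans e.symm :=
    ⟨_, rfl⟩
  have hφj : ∀ x, j (φ x) = g * j x * g⁻¹ := by
    intro x
    rw [← hej, hφ]
    change ((e (e.symm (MulAut.conjNormal g (e x)))) : E) = _
    rw [e.apply_symm_apply, MulAut.conjNormal_apply, hej]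
  have hcompat : ∀ n : ℤ, ∀ x, j ((φ ^ n) x) = g ^ n * j x * (g ^ n)⁻¹ := by
    intro n
    induction n using Int.induction_on with
    | zero => intro x; simp
    | succ n ih =>
      intro x
      rw [zpow_add_one, MulAut.mul_apply, ih, hφj, zpow_add_one, mul_inv_rev]
      group
    | pred n ih =>
      intro x
      have h1 : ∀ y, j (φ⁻¹ y) = g⁻¹ * j y * g := by
        intro y
        have h2 := hφj (φ⁻¹ y)
        rw [MulAut.apply_inv_self] at h2
        rw [h2]
        group
      rw [zpow_sub_one, MulAut.mul_apply, ih, h1, zpow_sub_one, mul_inv_rev]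
      group
  let F : G ⋊[zpowersHom (MulAut G) φ] Multiplicative ℤ →* E :=
    SemidirectProduct.lift j (zpowersHom E g) (by
      intro n
      ext x
      change j ((φ ^ n.toAdd) x) = g ^ n.toAdd * j x * (g ^ n.toAdd)⁻¹
      exact hcompat _ _)
  have hF : ∀ x, F x = j x.left * g ^ x.right.toAdd := fun x => rfl
  have hFinj : Function.Injective F := by
    rw [injective_iff_map_eq_one]
    intro x hx
    rw [hF] at hx
    have h1 : g ^ x.right.toAdd ∈ j.range := by
      rw [eq_inv_of_mul_eq_one_right hx]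
      exact inv_mem ⟨_, rfl⟩
    have h2 : x.right.toAdd = 0 := by
      by_contra hne
      refine hg x.right.toAdd.natAbs (Int.natAbs_pos.2 hne) ?_
      rcases Int.natAbs_eq x.right.toAdd with h3 | h3
      · rw [h3, zpow_natCast] at h1
        exact h1
      · rw [h3, zpow_neg, zpow_natCast] at h1
        exact inv_mem_iff.1 h1
    rw [h2, zpow_zero, mul_one] at hx
    apply SemidirectProduct.ext
    · rw [SemidirectProduct.one_left]
      exact (injective_iff_map_eq_one j).1 hj _ hx
    · rw [SemidirectProduct.one_right]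
      exact h2
  have hrange : F.range = j.range ⊔ Subgroup.zpowers g := by
    apply le_antisymm
    · rintro _ ⟨x, rfl⟩
      rw [hF]
      exact mul_mem (Subgroup.mem_sup_left ⟨_, rfl⟩)
        (Subgroup.mem_sup_right ⟨_, rfl⟩)
    · rw [sup_le_iff]
      constructor
      · rintro _ ⟨x, rfl⟩
        refine ⟨SemidirectProduct.inl x, ?_⟩
        rw [hF]
        simp
      · rw [Subgroup.zpowers_le]
        refine ⟨SemidirectProduct.inr (Multiplicative.ofAdd 1), ?_⟩
        rw [hF]
        simp
  rw [← hrange]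
  exact C_range hC F hFinj (h φ)

/-- extensions -/
theorem C_of_normal (hC : ClosedE C) {E : Type} [Group E] (N : Subgroup E) [hN : N.Normal]
    (h : CyclicExt C N) (hQ : C (E ⧸ N)) : C E := by
  refine Pool.Agent.Y529.FJ.t_ext C hC E N (h.self hC) hQ fun g hg => ?_
  have h1 : N.subtype.range = N := Subgroup.range_subtype N
  have h2 := h.internal hC N.subtype N.subtype_injective (by rw [h1]; exact hN) g (by
    rw [h1]
    exact hg)
  rw [h1] at h2
  exact h2

theorem CyclicExt.congr (hC : ClosedE C) {H : Type} [Group H] (e : G ≃* H) (h : CyclicExt C G) :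
    CyclicExt C H := by
  intro φ
  have hr : (SemidirectProduct.inl : H →* H ⋊[zpowersHom (MulAut H) φ] Multiplicative ℤ).range =
      (SemidirectProduct.rightHom : H ⋊[zpowersHom (MulAut H) φ] Multiplicative ℤ →* _).ker :=
    SemidirectProduct.range_inl_eq_ker_rightHom
  have hr' : ((SemidirectProduct.inl : H →* H ⋊[zpowersHom (MulAut H) φ] Multiplicative ℤ).comp
      e.toMonoidHom).range =
      (SemidirectProduct.inl : H →* H ⋊[zpowersHom (MulAut H) φ] Multiplicative ℤ).range := by
    rw [MonoidHom.range_comp, MonoidHom.range_eq_top.2 e.surjective, ← MonoidHom.range_eq_map]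
  have h1 := h.internal hC ((SemidirectProduct.inl : H →* H ⋊[zpowersHom (MulAut H) φ]
    Multiplicative ℤ).comp e.toMonoidHom) (SemidirectProduct.inl_injective.comp e.injective)
    (by rw [hr', hr]; infer_instance) (SemidirectProduct.inr (Multiplicative.ofAdd 1)) (by
      intro n hn hmem
      rw [hr', hr, MonoidHom.mem_ker, map_pow, SemidirectProduct.rightHom_inr,
        ← ofAdd_nsmul, ofAdd_eq_one] at hmem
      simp at hmem
      omega)
  have h2 : ((SemidirectProduct.inl : H →* H ⋊[zpowersHom (MulAut H) φ]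
      Multiplicative ℤ).comp e.toMonoidHom).range ⊔
      Subgroup.zpowers (SemidirectProduct.inr (Multiplicative.ofAdd 1)) = ⊤ := by
    rw [hr', eq_top_iff]
    intro x _
    have h3 : x = SemidirectProduct.inl x.left *
        (SemidirectProduct.inr (Multiplicative.ofAdd 1)) ^ x.right.toAdd := by
      rw [← map_zpow, ← ofAdd_zsmul, smul_eq_mul, mul_one, ofAdd_toAdd,
        SemidirectProduct.inl_left_mul_inr_right]
    rw [h3]
    exact mul_mem (Subgroup.mem_sup_left ⟨_, rfl⟩) (Subgroup.mem_sup_right ⟨_, rfl⟩)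
  rw [h2] at h1
  exact hC.base.of_injective _ _ Subgroup.topEquiv.symm.toMonoidHom (MulEquiv.injective _) h1

/-- passing to a power -/
theorem C_of_pow (hC : ClosedE C) (φ : MulAut G) (k : ℕ) (hk : 0 < k)
    (h : C (G ⋊[zpowersHom (MulAut G) (φ ^ k)] Multiplicative ℤ)) :
    C (G ⋊[zpowersHom (MulAut G) φ] Multiplicative ℤ) := by
  let F : G ⋊[zpowersHom (MulAut G) (φ ^ k)] Multiplicative ℤ →*
      G ⋊[zpowersHom (MulAut G) φ] Multiplicative ℤ :=
    SemidirectProduct.map (MonoidHom.id G) (zpowersHom (Multiplicative ℤ) (Multiplicative.ofAdd k)) (by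
      intro n
      ext x
      change (((φ ^ k) ^ n.toAdd) x) = (φ ^ ((Multiplicative.ofAdd (k : ℤ)) ^ n.toAdd).toAdd) x
      rw [toAdd_zpow, toAdd_ofAdd, smul_eq_mul, mul_comm, zpow_mul, zpow_natCast])
  have hFl : ∀ x, (F x).left = x.left := fun x => rfl
  have hFr : ∀ x, (F x).right = (Multiplicative.ofAdd (k : ℤ)) ^ x.right.toAdd := fun x => rfl
  have hFinj : Function.Injective F := by
    intro x y hxy
    apply SemidirectProduct.ext
    · rw [← hFl, hxy, hFl]
    · have h1 : (F x).right = (F y).right := by rw [hxy]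
      rw [hFr, hFr] at h1
      have h3 := congrArg Multiplicative.toAdd h1
      rw [toAdd_zpow, toAdd_zpow, toAdd_ofAdd, smul_eq_mul, smul_eq_mul] at h3
      have hk' : (k : ℤ) ≠ 0 := by exact_mod_cast hk.ne'
      exact Multiplicative.toAdd.injective (Int.eq_of_mul_eq_mul_right hk' h3)
  have hrange : F.range = (Subgroup.zpowers (Multiplicative.ofAdd (k : ℤ))).comap
      SemidirectProduct.rightHom := by
    ext x
    constructor
    · rintro ⟨y, rfl⟩
      exact ⟨y.right.toAdd, (hFr y).symm⟩
    · rintro ⟨n, hn⟩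
      refine ⟨⟨x.left, Multiplicative.ofAdd n⟩, ?_⟩
      apply SemidirectProduct.ext
      · rfl
      · exact hn
  have hidx : F.range.FiniteIndex := by
    constructor
    rw [hrange, Subgroup.index_comap_of_surjective _ SemidirectProduct.rightHom_surjective]
    have : NeZero k := ⟨hk.ne'⟩
    have hle : (AddMonoidHom.toMultiplicative (Int.castAddHom (ZMod k))).ker ≤
        Subgroup.zpowers (Multiplicative.ofAdd (k : ℤ)) := by
      intro n hn
      have h1 : ((n.toAdd : ℤ) : ZMod k) = 0 := hn
      rw [ZMod.intCast_zmod_eq_zero_iff_dvd] at h1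
      obtain ⟨c, hc⟩ := h1
      refine ⟨c, ?_⟩
      apply Multiplicative.toAdd.injective
      change (Multiplicative.ofAdd (k : ℤ) ^ c).toAdd = n.toAdd
      rw [toAdd_zpow, toAdd_ofAdd, smul_eq_mul, hc, mul_comm]
    have hfi : (AddMonoidHom.toMultiplicative (Int.castAddHom (ZMod k))).ker.FiniteIndex :=
      Subgroup.finiteIndex_ker _
    exact (Subgroup.finiteIndex_of_le hle).index_ne_zero
  exact hC.base.finiteIndex _ F.range hidx (C_range hC F hFinj h)

end

end Pool.Agent.N509.RG
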