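import Pool.Agent.N509.RG.Mat

set_option autoImplicit false

/-!
# The local statement: normal subgroups with finite-dimensional rational homology act trivially near a
nondegenerate representation
-/

namespace Pool.Agent.N509.RG

open Matrix IsLocalRing

/-- a functional on an ideal modulo its product with a maximal ideal -/
theorem exists_functional {R : Type} [CommRing R] (m J : Ideal R) [m.IsMaximal] (x₀ : R)
    (hx : x₀ ∈ J) (hx₀ : x₀ ∉ m * J) :
    ∃ L : R → R ⧸ m, (∀ x ∈ J, ∀ y ∈ J, L (x + y) = L x + L y) ∧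
      (∀ r, ∀ x ∈ J, L (r * x) = Ideal.Quotient.mk m r * L x) ∧ L x₀ ≠ 0 := by
  classical
  let _ : Field (R ⧸ m) := Ideal.Quotient.field m
  obtain ⟨x, hxx⟩ : ∃ x : J, (x : R) = x₀ := ⟨⟨x₀, hx⟩, rfl⟩
  have h1 : (Submodule.Quotient.mk x : J ⧸ (m • (⊤ : Submodule R J))) ≠ 0 := by
    intro h
    rw [Submodule.Quotient.mk_eq_zero] at h
    apply hx₀
    have h2 : (x : R) ∈ (m • (⊤ : Submodule R J)).map (Submodule.subtype J) := ⟨x, h, rfl⟩
    rw [Submodule.map_smul'', Submodule.map_subtype_top] at h2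
    rw [← hxx]
    exact h2
  obtain ⟨f, hf⟩ := Module.Projective.exists_dual_ne_zero (R ⧸ m) h1
  refine ⟨fun y => if h : y ∈ J then f (Submodule.Quotient.mk ⟨y, h⟩) else 0, ?_, ?_, ?_⟩
  · intro a ha b hb
    simp only [dif_pos ha, dif_pos hb, dif_pos (J.add_mem ha hb)]
    rw [← map_add]
    rfl
  · intro r a ha
    simp only [dif_pos ha, dif_pos (J.mul_mem_left r ha)]
    exact f.map_smul (Ideal.Quotient.mk m r) (Submodule.Quotient.mk ⟨a, ha⟩)
  · simp only [dif_pos hx]
    have : (⟨x₀, hx⟩ : J) = x := Subtype.ext hxx.symm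
    rw [this]
    exact hf

/-- The image of each homomorphism from `N` to a `k`-module generates a finitely generated
submodule, that is, the `k`-module `H₁(N; k)` is finitely generated. -/
def FinH1 (k : Type) [CommRing k] (N : Type) [Group N] : Prop :=
  ∀ (V : Type) [AddCommGroup V] [Module k V] (v : Additive N →+ V),
    (Submodule.span k (Set.range v)).FG

/-- the deviation of a matrix from the identity -/
abbrev dev {R : Type} [CommRing R] (A : SpecialLinearGroup (Fin 2) R) : Matrix (Fin 2) (Fin 2) R :=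
  A.1 - 1

section key

variable {R : Type} [CommRing R] {G : Type} [Group G] (ρ : G →* SpecialLinearGroup (Fin 2) R)
  (N : Subgroup G)

/-- the ideal generated by the entries of `ρ n - 1` for `n` in `N` -/
def JI : Ideal R := Ideal.span {x | ∃ n ∈ N, ∃ i j, x = dev (ρ n) i j}

variable {ρ N}

theorem dev_mem {n : G} (hn : n ∈ N) (i j : Fin 2) : dev (ρ n) i j ∈ JI ρ N :=
  Ideal.subset_span ⟨n, hn, i, j, rfl⟩

section functional

variable {m : Ideal R} {L : R → R ⧸ m} {J : Ideal R}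

theorem L_mul (hadd : ∀ x ∈ J, ∀ y ∈ J, L (x + y) = L x + L y)
    (hmul : ∀ r, ∀ x ∈ J, L (r * x) = Ideal.Quotient.mk m r * L x)
    (A B : Matrix (Fin 2) (Fin 2) R) (hB : ∀ i j, B i j ∈ J) :
    (A * B).map L = A.map (Ideal.Quotient.mk m) * B.map L := by
  ext i j
  simp only [Matrix.map_apply, Matrix.mul_apply, Fin.sum_univ_two]
  rw [hadd _ (J.mul_mem_left _ (hB _ _)) _ (J.mul_mem_left _ (hB _ _)), hmul _ _ (hB _ _),
    hmul _ _ (hB _ _)]

theorem L_mul' (hadd : ∀ x ∈ J, ∀ y ∈ J, L (x + y) = L x + L y)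
    (hmul : ∀ r, ∀ x ∈ J, L (r * x) = Ideal.Quotient.mk m r * L x)
    (A B : Matrix (Fin 2) (Fin 2) R) (hB : ∀ i j, B i j ∈ J) :
    (B * A).map L = B.map L * A.map (Ideal.Quotient.mk m) := by
  ext i j
  simp only [Matrix.map_apply, Matrix.mul_apply, Fin.sum_univ_two]
  rw [hadd _ (J.mul_mem_right _ (hB _ _)) _ (J.mul_mem_right _ (hB _ _)), mul_comm (B i 0),
    mul_comm (B i 1), hmul _ _ (hB _ _), hmul _ _ (hB _ _), mul_comm (L (B i 0)),
    mul_comm (L (B i 1))]

theorem L_add (hadd : ∀ x ∈ J, ∀ y ∈ J, L (x + y) = L x + L y)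
    (A B : Matrix (Fin 2) (Fin 2) R) (hA : ∀ i j, A i j ∈ J) (hB : ∀ i j, B i j ∈ J) :
    (A + B).map L = A.map L + B.map L := by
  ext i j
  simp only [Matrix.map_apply, Matrix.add_apply]
  exact hadd _ (hA _ _) _ (hB _ _)

end functional

theorem dev_mul (A B : SpecialLinearGroup (Fin 2) R) :
    dev (A * B) = dev A + dev B + dev A * dev B := by
  have h : (A * B).1 = A.1 * B.1 := rfl
  rw [dev, dev, dev, h]
  noncomm_ring

theorem dev_conj (A B : SpecialLinearGroup (Fin 2) R) :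
    dev (A * B * A⁻¹) = A.1 * dev B * A.1.adjugate := by
  have h : (A * B * A⁻¹).1 = A.1 * B.1 * A.1.adjugate := rfl
  have h1 : A.1 * A.1.adjugate = 1 := by rw [Matrix.mul_adjugate, A.2, one_smul]
  rw [dev, dev, h, mul_sub, sub_mul, mul_one, h1]

theorem dev_conj' (A B : SpecialLinearGroup (Fin 2) R) :
    dev (A⁻¹ * B * A) = A.1.adjugate * dev B * A.1 := by
  have h : (A⁻¹ * B * A).1 = A.1.adjugate * B.1 * A.1 := rfl
  have h1 : A.1.adjugate * A.1 = 1 := by rw [Matrix.adjugate_mul, A.2, one_smul]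
  rw [dev, dev, h, mul_sub, sub_mul, mul_one, h1]

theorem dev_trace (A : SpecialLinearGroup (Fin 2) R) :
    dev A 0 0 + dev A 1 1 = - (dev A 0 0 * dev A 1 1) + dev A 0 1 * dev A 1 0 := by
  have h := A.2
  rw [Matrix.det_fin_two] at h
  simp only [dev, Matrix.sub_apply, Matrix.one_apply_eq]
  rw [Matrix.one_apply_ne (by decide), Matrix.one_apply_ne (by decide)]
  linear_combination h

end key

theorem key {k : Type} [CommRing k] {R : Type} [CommRing R] [Algebra k R] [Algebra ℚ R]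
    [IsNoetherianRing R] [IsLocalRing R] {G : Type}
    [Group G] (ρ : G →* SpecialLinearGroup (Fin 2) R) (N : Subgroup G) [N.Normal]
    (hfin : FinH1 k N) (hN : ∀ n ∈ N, ∀ i j, dev (ρ n) i j ∈ maximalIdeal R) (g h : G)
    (hg : ¬ IsIntegral k (Ideal.Quotient.mk (maximalIdeal R) (ρ g).1.trace))
    (hh : ¬ IsIntegral k (Ideal.Quotient.mk (maximalIdeal R) (ρ h).1.trace))
    (hgh : (ρ g).1.map (Ideal.Quotient.mk (maximalIdeal R)) *
        (ρ h).1.map (Ideal.Quotient.mk (maximalIdeal R)) ≠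
      (ρ h).1.map (Ideal.Quotient.mk (maximalIdeal R)) *
        (ρ g).1.map (Ideal.Quotient.mk (maximalIdeal R))) :
    ∀ n ∈ N, ρ n = 1 := by
  obtain ⟨m, hm⟩ : ∃ m : Ideal R, m = maximalIdeal R := ⟨_, rfl⟩
  have hmm : m.IsMaximal := by rw [hm]; infer_instance
  rw [← hm] at hg hh hgh hN
  let _ : Field (R ⧸ m) := Ideal.Quotient.field m
  have hJm : JI ρ N ≤ m := by
    rw [JI, Ideal.span_le]
    rintro _ ⟨n, hn, i, j, rfl⟩
    exact hN n hn i j
  have hJ : JI ρ N ≤ m • JI ρ N := by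
    rw [JI, Ideal.span_le]
    rintro _ ⟨n₀, hn₀, i₀, j₀, rfl⟩
    by_contra hcon
    obtain ⟨L, hadd, hmul, hL⟩ := exists_functional m (JI ρ N) (dev (ρ n₀) i₀ j₀)
      (dev_mem hn₀ i₀ j₀) hcon
    have hdm : ∀ n ∈ N, ∀ i j, dev (ρ n) i j ∈ JI ρ N := fun n hn i j => dev_mem hn i j
    have hzero : ∀ n ∈ N, (dev (ρ n)).map (Ideal.Quotient.mk m) = 0 := by
      intro n hn
      ext i j
      rw [Matrix.map_apply, Matrix.zero_apply, Ideal.Quotient.eq_zero_iff_mem]
      exact hN n hn i j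
    have hmulJ : ∀ n ∈ N, ∀ n' ∈ N, ∀ i j, (dev (ρ n) * dev (ρ n')) i j ∈ JI ρ N := by
      intro n hn n' hn' i j
      rw [Matrix.mul_apply]
      exact sum_mem fun k _ => Ideal.mul_mem_left _ _ (hdm n' hn' k j)
    -- the additive map
    let v : Additive N →+ Matrix (Fin 2) (Fin 2) (R ⧸ m) := AddMonoidHom.mk'
      (fun n => (dev (ρ n.toMul.1)).map L) (by
        intro a b
        obtain ⟨n, hn⟩ := a
        obtain ⟨n', hn'⟩ := b
        change (dev (ρ (n * n'))).map L = (dev (ρ n)).map L + (dev (ρ n')).map L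
        rw [map_mul, dev_mul, L_add (J := JI ρ N) hadd (dev (ρ n) + dev (ρ n'))
          (dev (ρ n) * dev (ρ n')) (fun i j => (JI ρ N).add_mem
          (hdm n hn i j) (hdm n' hn' i j)) (hmulJ n hn n' hn'), L_add (J := JI ρ N) hadd _ _
          (hdm n hn) (hdm n' hn'), L_mul (J := JI ρ N) hadd hmul _ _ (hdm n' hn'), hzero n hn,
          zero_mul, add_zero])
    have hv : ∀ (n : G) (hn : n ∈ N), v (Additive.ofMul ⟨n, hn⟩) = (dev (ρ n)).map L :=
      fun n hn => rfl
    obtain ⟨M, hM⟩ : ∃ M : Submodule k (Matrix (Fin 2) (Fin 2) (R ⧸ m)),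
      M = Submodule.span k (Set.range v) := ⟨_, rfl⟩
    have hMfg : M.FG := by
      rw [hM]
      exact hfin _ v
    have hvM : ∀ (n : G) (hn : n ∈ N), (dev (ρ n)).map L ∈ M := by
      intro n hn
      rw [hM, ← hv n hn]
      exact Submodule.subset_span ⟨_, rfl⟩
    -- conjugations
    have hconj : ∀ x : G, ∀ u ∈ M, (ρ x).1.map (Ideal.Quotient.mk m) * u *
        ((ρ x).1.map (Ideal.Quotient.mk m)).adjugate ∈ M := by
      intro x u hu
      rw [hM] at hu
      induction hu using Submodule.span_induction with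
      | mem u hu =>
        obtain ⟨⟨n, hn⟩, rfl⟩ := hu
        have h1 := hvM (x * n * x⁻¹) (Subgroup.Normal.conj_mem ‹_› n hn x)
        rw [map_mul, map_mul, map_inv, dev_conj, L_mul' (J := JI ρ N) hadd hmul _ _ (by
          intro i j
          rw [Matrix.mul_apply]
          exact sum_mem fun k _ => Ideal.mul_mem_left _ _ (hdm n hn k j)),
          L_mul (J := JI ρ N) hadd hmul _ _ (hdm n hn)] at h1
        have h2 : (ρ x).1.adjugate.map (Ideal.Quotient.mk m) =
            ((ρ x).1.map (Ideal.Quotient.mk m)).adjugate :=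
          RingHom.map_adjugate (Ideal.Quotient.mk m) _
        rw [h2] at h1
        exact h1
      | zero => rw [mul_zero, zero_mul]; exact M.zero_mem
      | add u w _ _ hu hw => rw [mul_add, add_mul]; exact M.add_mem hu hw
      | smul q u _ hu => rw [mul_smul_comm, smul_mul_assoc]; exact M.smul_mem q hu
    have hconj' : ∀ x : G, ∀ u ∈ M, ((ρ x).1.map (Ideal.Quotient.mk m)).adjugate * u *
        (ρ x).1.map (Ideal.Quotient.mk m) ∈ M := by
      intro x u hu
      have h1 := hconj x⁻¹ u hu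
      have h2 : (ρ x⁻¹).1 = (ρ x).1.adjugate := by rw [map_inv]; rfl
      have h3 : (ρ x).1.adjugate.map (Ideal.Quotient.mk m) =
            ((ρ x).1.map (Ideal.Quotient.mk m)).adjugate :=
          RingHom.map_adjugate (Ideal.Quotient.mk m) _
      rw [h2, h3] at h1
      have h4 : ((ρ x).1.map (Ideal.Quotient.mk m)).adjugate.adjugate =
          (ρ x).1.map (Ideal.Quotient.mk m) := by
        rw [Matrix.adjugate_fin_two, Matrix.adjugate_fin_two]
        ext i j
        fin_cases i <;> fin_cases j <;> simp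
      rw [h4] at h1
      exact h1
    have hdet : ∀ x : G, ((ρ x).1.map (Ideal.Quotient.mk m)).det = 1 := by
      intro x
      have h1 := RingHom.map_det (Ideal.Quotient.mk m) (ρ x).1
      rw [(ρ x).2, map_one] at h1
      exact h1.symm
    have htr : ∀ x : G, ((ρ x).1.map (Ideal.Quotient.mk m)).trace =
        Ideal.Quotient.mk m (ρ x).1.trace := by
      intro x
      rw [Matrix.trace_fin_two, Matrix.trace_fin_two, map_add]
      rfl
    have hX := commute_of_stable M hMfg _ (hdet g) (hconj g) (hconj' g)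
      (by rw [htr]; exact hg) _ (hvM n₀ hn₀)
    have hY := commute_of_stable M hMfg _ (hdet h) (hconj h) (hconj' h)
      (by rw [htr]; exact hh) _ (hvM n₀ hn₀)
    have h2 : (2 : R ⧸ m) ≠ 0 := by
      have h3 : (algebraMap ℚ (R ⧸ m)) 2 ≠ 0 := by
        rw [Ne, map_eq_zero_iff _ (algebraMap ℚ (R ⧸ m)).injective]
        norm_num
      rwa [map_ofNat] at h3
    have hm0 : ∀ x ∈ m, ∀ y ∈ JI ρ N, L (x * y) = 0 := by
      intro x hx y hy
      rw [hmul x y hy, Ideal.Quotient.eq_zero_iff_mem.2 hx, zero_mul]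
    have hvt : ((dev (ρ n₀)).map L).trace = 0 := by
      rw [Matrix.trace_fin_two, Matrix.map_apply, Matrix.map_apply,
        ← hadd _ (hdm n₀ hn₀ 0 0) _ (hdm n₀ hn₀ 1 1), dev_trace, ← neg_mul,
        hadd _ (Ideal.mul_mem_left _ _ (hdm n₀ hn₀ 1 1)) _
          (Ideal.mul_mem_left _ _ (hdm n₀ hn₀ 1 0)),
        hm0 _ (m.neg_mem (hN n₀ hn₀ 0 0)) _ (hdm n₀ hn₀ 1 1),
        hm0 _ (hN n₀ hn₀ 0 1) _ (hdm n₀ hn₀ 1 0), add_zero]
    have h0 := eq_zero_of_commute h2 hgh hX hY hvt
    apply hL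
    exact congrFun (congrFun h0 i₀) j₀
  have hbot : JI ρ N = ⊥ := by
    refine Submodule.eq_bot_of_le_smul_of_le_jacobson_bot m (JI ρ N)
      (IsNoetherian.noetherian _) hJ ?_
    rw [hm]
    exact IsLocalRing.maximalIdeal_le_jacobson _
  intro n hn
  apply Subtype.ext
  have h1 : dev (ρ n) = 0 := by
    ext i j
    have h2 := dev_mem (ρ := ρ) hn i j
    rw [hbot] at h2
    exact h2
  exact sub_eq_zero.1 h1

end Pool.Agent.N509.RG
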