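import Mathlib

set_option autoImplicit false

/-!
# Two by two matrices and finite-dimensional rational subspaces stable under conjugation
-/

namespace Pool.Agent.N509.RG

open Matrix

theorem adj_eq {R : Type} [CommRing R] (X : Matrix (Fin 2) (Fin 2) R) :
    X.adjugate = X.trace • (1 : Matrix (Fin 2) (Fin 2) R) - X := by
  rw [Matrix.adjugate_fin_two]
  ext i j
  fin_cases i <;> fin_cases j <;>
    simp [Matrix.trace_fin_two]

theorem sq_eq {R : Type} [CommRing R] (X : Matrix (Fin 2) (Fin 2) R) (h : X.det = 1) :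
    X * X = X.trace • X - 1 := by
  have h1 := Matrix.mul_adjugate X
  rw [adj_eq, h, one_smul, mul_sub, mul_smul_comm, mul_one] at h1
  rw [← h1]
  abel

/-- the identity behind the eigenvalues `1, μ², μ⁻²` of the conjugation by a matrix with the
eigenvalues `μ, μ⁻¹` -/
theorem conj_identity {R : Type} [CommRing R] (X u : Matrix (Fin 2) (Fin 2) R) (h : X.det = 1) :
    (X.trace ^ 2 - 2) • (X * u * X.adjugate - u) =
      X * (X * u * X.adjugate + X.adjugate * u * X) * X.adjugate -
        (X * u * X.adjugate + X.adjugate * u * X) := by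
  have h1 := sq_eq X h
  have h2 : ∀ v, X * (X * v) = X.trace • (X * v) - v := fun v => by
    rw [← mul_assoc, h1, sub_mul, one_mul, smul_mul_assoc]
  rw [adj_eq]
  generalize X.trace = t at *
  simp only [mul_sub, sub_mul, mul_add, add_mul, smul_mul_assoc, mul_smul_comm, mul_one, one_mul,
    mul_assoc, h1, h2, smul_sub, smul_smul]
  module

section

variable {κ : Type} [Field κ]

/-- a finitely generated `k`-module of matrices which is stable under the conjugation by a matrix
the trace of which is not integral over `k` consists of matrices which commute with it -/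
theorem commute_of_stable {k : Type} [CommRing k] [Algebra k κ]
    (M : Submodule k (Matrix (Fin 2) (Fin 2) κ)) (hM : M.FG)
    (X : Matrix (Fin 2) (Fin 2) κ) (hX : X.det = 1) (h1 : ∀ u ∈ M, X * u * X.adjugate ∈ M)
    (h2 : ∀ u ∈ M, X.adjugate * u * X ∈ M) (ht : ¬ IsIntegral k X.trace) :
    ∀ u ∈ M, X * u = u * X := by
  -- the module of the differences
  let D : Matrix (Fin 2) (Fin 2) κ →ₗ[k] Matrix (Fin 2) (Fin 2) κ :=
    { toFun := fun u => X * u * X.adjugate - u
      map_add' := fun u v => by rw [mul_add, add_mul]; abel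
      map_smul' := fun q u => by
        rw [RingHom.id_apply, mul_smul_comm, smul_mul_assoc, smul_sub] }
  have hD : ∀ u, D u = X * u * X.adjugate - u := fun u => rfl
  have hM' : (M.map D).FG := hM.map D
  have hstab : ∀ w ∈ M.map D, (X.trace ^ 2 - 2) • w ∈ M.map D := by
    rintro _ ⟨u, hu, rfl⟩
    refine ⟨X * u * X.adjugate + X.adjugate * u * X, M.add_mem (h1 u hu) (h2 u hu), ?_⟩
    rw [hD, hD]
    exact (conj_identity X u hX).symm
  by_contra hcon
  push Not at hcon
  obtain ⟨u, hu, hne⟩ := hcon
  have hne' : M.map D ≠ ⊥ := by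
    intro hbot
    have h3 : D u ∈ M.map D := ⟨u, hu, rfl⟩
    rw [hbot, Submodule.mem_bot, hD, sub_eq_zero] at h3
    apply hne
    calc X * u = X * u * (X.adjugate * X) := by
          rw [Matrix.adjugate_mul, hX, one_smul, mul_one]
      _ = X * u * X.adjugate * X := by rw [mul_assoc (X * u)]
      _ = u * X := by rw [h3]
  have h3 := isIntegral_of_smul_mem_submodule (M.map D) hne' hM' _ hstab
  apply ht
  have h5 : IsIntegral k (2 : κ) := by
    have h := isIntegral_algebraMap (R := k) (A := κ) (x := 2)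
    rwa [map_ofNat] at h
  have h4 : IsIntegral k (X.trace ^ 2 - 2 + 2) := h3.add h5
  rw [sub_add_cancel] at h4
  exact h4.of_pow two_pos

theorem eq_zero_of_commute (h2 : (2 : κ) ≠ 0) {X Y v : Matrix (Fin 2) (Fin 2) κ} (hXY : X * Y ≠ Y * X)
    (hX : X * v = v * X) (hY : Y * v = v * Y) (ht : v.trace = 0) : v = 0 := by
  rw [Matrix.trace_fin_two] at ht
  have hx1 := congrFun (congrFun hX 0) 0
  have hx2 := congrFun (congrFun hX 0) 1
  have hx3 := congrFun (congrFun hX 1) 0
  have hy1 := congrFun (congrFun hY 0) 0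
  have hy2 := congrFun (congrFun hY 0) 1
  have hy3 := congrFun (congrFun hY 1) 0
  simp only [Matrix.mul_apply, Fin.sum_univ_two] at hx1 hx2 hx3 hy1 hy2 hy3
  by_contra hv
  apply hXY
  have hd : v 1 1 = - v 0 0 := by linear_combination ht
  rw [hd] at hx2 hx3 hy2 hy3
  have key : X 0 1 * Y 1 0 = X 1 0 * Y 0 1 ∧
      Y 0 1 * (X 0 0 - X 1 1) = X 0 1 * (Y 0 0 - Y 1 1) ∧
      X 1 0 * (Y 0 0 - Y 1 1) = Y 1 0 * (X 0 0 - X 1 1) := by
    by_cases hb : v 0 1 = 0
    · by_cases hc : v 1 0 = 0
      · have ha : 2 * v 0 0 ≠ 0 := by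
          intro ha
          apply hv
          have ha' := (mul_eq_zero.1 ha).resolve_left h2
          ext i j
          fin_cases i <;> fin_cases j
          · exact ha'
          · exact hb
          · exact hc
          · change v 1 1 = 0
            rw [hd, ha', neg_zero]
        refine ⟨?_, ?_, ?_⟩
        · apply mul_left_cancel₀ ha
          linear_combination Y 1 0 * (-hx2) + X 1 0 * hy2 + (X 0 0 - X 1 1) * Y 1 0 * hb - (Y 0 0 - Y 1 1) * X 1 0 * hb
        · apply mul_left_cancel₀ ha
          linear_combination (X 0 0 - X 1 1) * (-hy2) + (Y 0 0 - Y 1 1) * hx2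
        · apply mul_left_cancel₀ ha
          linear_combination (Y 0 0 - Y 1 1) * hx3 - (X 0 0 - X 1 1) * hy3
      · have k3 : X 1 0 * (Y 0 0 - Y 1 1) = Y 1 0 * (X 0 0 - X 1 1) := by
          apply mul_left_cancel₀ hc
          linear_combination X 1 0 * (-hy3) + Y 1 0 * hx3
        refine ⟨?_, ?_, k3⟩
        · apply mul_left_cancel₀ hc
          linear_combination Y 1 0 * hx1 - X 1 0 * hy1
        · apply mul_left_cancel₀ hc
          linear_combination (X 0 0 - X 1 1) * hy1 - (Y 0 0 - Y 1 1) * hx1 - v 0 1 * k3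
    · have k1 : X 0 1 * Y 1 0 = X 1 0 * Y 0 1 := by
        apply mul_left_cancel₀ hb
        linear_combination X 0 1 * (-hy1) + Y 0 1 * hx1
      refine ⟨k1, ?_, ?_⟩
      · apply mul_left_cancel₀ hb
        linear_combination Y 0 1 * hx2 - X 0 1 * hy2
      · apply mul_left_cancel₀ hb
        linear_combination X 1 0 * hy2 - Y 1 0 * hx2 - 2 * v 0 0 * k1
  obtain ⟨k1, k2, k3⟩ := key
  ext i j
  fin_cases i <;> fin_cases j
  · simp only [Matrix.mul_apply, Fin.sum_univ_two, Fin.zero_eta, Fin.mk_one]
    linear_combination k1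
  · simp only [Matrix.mul_apply, Fin.sum_univ_two, Fin.zero_eta, Fin.mk_one]
    linear_combination k2
  · simp only [Matrix.mul_apply, Fin.sum_univ_two, Fin.zero_eta, Fin.mk_one]
    linear_combination k3
  · simp only [Matrix.mul_apply, Fin.sum_univ_two, Fin.zero_eta, Fin.mk_one]
    linear_combination -k1

end

end Pool.Agent.N509.RG
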