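import Pool.Agent.N509.RG.Key

set_option autoImplicit false

/-!
# A finitely generated group has only finitely many normal subgroups with finite-dimensional rational
homology and flexible quotient
-/

namespace Pool.Agent.N509.RG

open Matrix IsLocalRing

/-- `Q` is isomorphic to a subgroup of `SL₂(ℂ)` which contains two elements that do not commute and
the traces of which are not integral over `k`. For `k = ℚ` this means that the traces are
transcendental, and for `k = ℤ` that they are not algebraic integers. -/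
def Flexible (k : Type) [CommRing k] [Algebra k ℂ] (Q : Type) [Group Q] : Prop :=
  ∃ σ : Q →* SpecialLinearGroup (Fin 2) ℂ, Function.Injective σ ∧ ∃ g h : Q, g * h ≠ h * g ∧
    ¬ IsIntegral k (σ g).1.trace ∧ ¬ IsIntegral k (σ h).1.trace

section ring

variable (G : Type) [Group G]

/-- the representations -/
abbrev Rp : Type := G →* SpecialLinearGroup (Fin 2) ℂ

variable {G}

/-- the matrix entries of the group elements, as functions on the set of the representations -/
noncomputable def ent (g : G) (i j : Fin 2) : Rp G → ℂ := fun σ => (σ g).1 i j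

variable (G)

/-- the coordinate ring of the set of the representations -/
noncomputable def CR : Subalgebra ℚ (Rp G → ℂ) := Algebra.adjoin ℚ {f | ∃ g i j, f = ent g i j}

variable {G}

theorem ent_mem (g : G) (i j : Fin 2) : ent g i j ∈ CR G :=
  Algebra.subset_adjoin ⟨g, i, j, rfl⟩

theorem ent_mul (g h : G) (i j : Fin 2) :
    ent (g * h) i j = ent g i 0 * ent h 0 j + ent g i 1 * ent h 1 j := by
  funext σ
  change (σ (g * h)).1 i j = (σ g).1 i 0 * (σ h).1 0 j + (σ g).1 i 1 * (σ h).1 1 j
  rw [map_mul]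
  change ((σ g).1 * (σ h).1) i j = _
  rw [Matrix.mul_apply, Fin.sum_univ_two]

theorem ent_one (i j : Fin 2) : ent (1 : G) i j = algebraMap ℚ _ (if i = j then 1 else 0) := by
  funext σ
  change (σ 1).1 i j = _
  rw [map_one]
  change (1 : Matrix (Fin 2) (Fin 2) ℂ) i j = _
  rw [Matrix.one_apply]
  split_ifs <;> simp

theorem ent_inv (g : G) (i j : Fin 2) :
    ent g⁻¹ i j = if i = j then ent g (1 - i) (1 - i) else - ent g i j := by
  funext σ
  change (σ g⁻¹).1 i j = _
  rw [map_inv]
  change (σ g).1.adjugate i j = _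
  rw [Matrix.adjugate_fin_two]
  fin_cases i <;> fin_cases j <;> simp [ent]

theorem CR_fg [hG : Group.FG G] : (CR G).FG := by
  obtain ⟨S, hS⟩ := hG.out
  rw [Subalgebra.fg_def]
  refine ⟨(fun x : G × Fin 2 × Fin 2 => ent x.1 x.2.1 x.2.2) '' ((S : Set G) ×ˢ Set.univ), ?_, ?_⟩
  · exact (S.finite_toSet.prod Set.finite_univ).image _
  obtain ⟨A, hA⟩ : ∃ A, A = Algebra.adjoin ℚ ((fun x : G × Fin 2 × Fin 2 => ent x.1 x.2.1 x.2.2) ''
    ((S : Set G) ×ˢ Set.univ)) := ⟨_, rfl⟩
  rw [← hA]
  have key : ∀ g : G, ∀ i j, ent g i j ∈ A := by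
    intro g
    have hg : g ∈ Subgroup.closure (S : Set G) := by rw [hS]; trivial
    induction hg using Subgroup.closure_induction with
    | mem x hx =>
      intro i j
      rw [hA]
      exact Algebra.subset_adjoin ⟨(x, i, j), ⟨hx, trivial⟩, rfl⟩
    | one =>
      intro i j
      rw [ent_one]
      exact A.algebraMap_mem _
    | mul x y _ _ hx hy =>
      intro i j
      rw [ent_mul]
      exact A.add_mem (A.mul_mem (hx _ _) (hy _ _)) (A.mul_mem (hx _ _) (hy _ _))
    | inv x _ hx =>
      intro i j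
      rw [ent_inv]
      split_ifs
      · exact hx _ _
      · exact A.neg_mem (hx _ _)
  apply le_antisymm
  · rw [hA]
    refine Algebra.adjoin_mono ?_
    rintro _ ⟨x, _, rfl⟩
    exact ⟨x.1, x.2.1, x.2.2, rfl⟩
  · rw [CR, Algebra.adjoin_le_iff]
    rintro _ ⟨g, i, j, rfl⟩
    exact key g i j

theorem CR_noetherian [Group.FG G] : IsNoetherianRing (CR G) := by
  have h : Algebra.FiniteType ℚ (CR G) := (CR G).fg_iff_finiteType.1 CR_fg
  exact Algebra.FiniteType.isNoetherianRing ℚ (CR G)

variable (G)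

/-- the universal representation -/
noncomputable def univ : G →* SpecialLinearGroup (Fin 2) (CR G) where
  toFun g := ⟨Matrix.of fun i j => ⟨ent g i j, ent_mem g i j⟩, by
    rw [Matrix.det_fin_two]
    apply Subtype.ext
    funext σ
    have h := (σ g).2
    rw [Matrix.det_fin_two] at h
    exact h⟩
  map_one' := by
    apply Subtype.ext
    ext1 i j
    apply Subtype.ext
    change ent (1 : G) i j = ((1 : Matrix (Fin 2) (Fin 2) (CR G)) i j : CR G).1
    rw [ent_one, Matrix.one_apply]
    split_ifs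
    · rw [map_one]; rfl
    · rw [map_zero]; rfl
  map_mul' g h := by
    apply Subtype.ext
    ext1 i j
    apply Subtype.ext
    refine (ent_mul g h i j).trans ?_
    have h1 : ∀ A B : Matrix (Fin 2) (Fin 2) (CR G), ((A * B) i j : CR G).1 =
        (A i 0).1 * (B 0 j).1 + (A i 1).1 * (B 1 j).1 := fun A B => by
      rw [Matrix.mul_apply, Fin.sum_univ_two]
      rfl
    exact (h1 (Matrix.of fun i j => ⟨ent g i j, ent_mem g i j⟩)
      (Matrix.of fun i j => ⟨ent h i j, ent_mem h i j⟩)).symm

variable {G}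

/-- evaluation at a representation -/
noncomputable def ev (σ : Rp G) : CR G →+* ℂ := (Pi.evalRingHom (fun _ => ℂ) σ).comp (CR G).val.toRingHom

theorem ev_univ (σ : Rp G) (g : G) (i j : Fin 2) : ev σ ((univ G g).1 i j) = (σ g).1 i j := rfl

theorem ev_dev (σ : Rp G) (g : G) (i j : Fin 2) : ev σ (dev (univ G g) i j) = dev (σ g) i j := by
  rw [dev, dev, Matrix.sub_apply, Matrix.sub_apply, map_sub, ev_univ, Matrix.one_apply,
    Matrix.one_apply]
  split_ifs
  · rw [map_one]
  · rw [map_zero]

end ring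

/-- the rings with at most one homomorphism to each other ring: `ℤ` and `ℚ` -/
def Epi (k : Type) [CommRing k] : Prop :=
  ∀ (B : Type) [CommRing B] (f f' : k →+* B), f = f'

theorem epi_int : Epi ℤ := fun _ _ f f' => RingHom.ext_int f f'

theorem epi_rat : Epi ℚ := fun _ _ f f' => Subsingleton.elim f f'

theorem not_integral_of_ker {k : Type} [CommRing k] (hk : Epi k) {A B B' : Type} [CommRing A]
    [CommRing B] [CommRing B'] [Algebra k A] [Algebra k B] [Algebra k B'] (f : A →+* B)
    (f' : A →+* B') (h : ∀ x, f x = 0 → f' x = 0) {x : A}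
    (hx : ¬ IsIntegral k (f' x)) : ¬ IsIntegral k (f x) := by
  rintro ⟨q, hq, h1⟩
  apply hx
  refine ⟨q, hq, ?_⟩
  have e : algebraMap k B = f.comp (algebraMap k A) := hk _ _ _
  have e' : algebraMap k B' = f'.comp (algebraMap k A) := hk _ _ _
  rw [e, ← Polynomial.hom_eval₂] at h1
  rw [e', ← Polynomial.hom_eval₂, h _ h1]

section local_step

/-- the local statement, before the localization -/
theorem local_step {k : Type} [CommRing k] [Algebra k ℂ] (hk : Epi k) {A : Type} [CommRing A]
    [Algebra k A] (p : Ideal A) [p.IsPrime] (R : Type)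
    [CommRing R] [Algebra A R] [IsLocalization.AtPrime R p] [IsLocalRing R] [IsNoetherianRing R]
    [Algebra k R] [Algebra ℚ R] {G : Type} [Group G] (ρ : G →* SpecialLinearGroup (Fin 2) A)
    (N : Subgroup G) [N.Normal] (hfin : FinH1 k N) (hJ : ∀ n ∈ N, ∀ i j, dev (ρ n) i j ∈ p) (e : A →+* ℂ)
    (he : ∀ x ∈ p, e x = 0) (g h : G) (hg : ¬ IsIntegral k (e (ρ g).1.trace))
    (hh : ¬ IsIntegral k (e (ρ h).1.trace))
    (hgh : (ρ g).1.map e * (ρ h).1.map e ≠ (ρ h).1.map e * (ρ g).1.map e) (n : G) (hn : n ∈ N)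
    (i j : Fin 2) : ∃ s ∉ p, s * dev (ρ n) i j = 0 := by
  obtain ⟨f, hf⟩ : ∃ f : A →+* R ⧸ maximalIdeal R,
    f = (Ideal.Quotient.mk (maximalIdeal R)).comp (algebraMap A R) := ⟨_, rfl⟩
  have hker : ∀ x : A, f x = 0 → e x = 0 := by
    intro x hx
    rw [hf, RingHom.comp_apply, Ideal.Quotient.eq_zero_iff_mem,
      IsLocalization.AtPrime.to_map_mem_maximal_iff R p] at hx
    exact he x hx
  have htr : ∀ x : G, Ideal.Quotient.mk (maximalIdeal R)
      ((SpecialLinearGroup.map (algebraMap A R)).comp ρ x).1.trace = f (ρ x).1.trace := by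
    intro x
    rw [Matrix.trace_fin_two, Matrix.trace_fin_two, map_add, map_add, hf]
    rfl
  have hmap : ∀ x : G, ((SpecialLinearGroup.map (algebraMap A R)).comp ρ x).1.map
      (Ideal.Quotient.mk (maximalIdeal R)) = (ρ x).1.map f := by
    intro x
    ext i j
    rw [hf]
    rfl
  have hkey := key ((SpecialLinearGroup.map (algebraMap A R)).comp ρ) N hfin ?_ g h ?_ ?_ ?_ n hn
  · have h1 : algebraMap A R (dev (ρ n) i j) = 0 := by
      have h2 := congrFun (congrFun (congrArg Subtype.val hkey) i) j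
      rw [dev, Matrix.sub_apply, map_sub]
      change algebraMap A R ((ρ n).1 i j) = (1 : Matrix (Fin 2) (Fin 2) R) i j at h2
      rw [h2, Matrix.one_apply, Matrix.one_apply]
      split_ifs
      · rw [map_one, sub_self]
      · rw [map_zero, sub_self]
    rw [IsLocalization.map_eq_zero_iff p.primeCompl] at h1
    obtain ⟨s, hs⟩ := h1
    exact ⟨s, s.2, hs⟩
  · intro n hn i j
    have h1 : dev ((SpecialLinearGroup.map (algebraMap A R)).comp ρ n) i j =
        algebraMap A R (dev (ρ n) i j) := by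
      rw [dev, dev, Matrix.sub_apply, Matrix.sub_apply, map_sub, Matrix.one_apply, Matrix.one_apply]
      split_ifs
      · rw [map_one]; rfl
      · rw [map_zero]; rfl
    rw [h1, IsLocalization.AtPrime.to_map_mem_maximal_iff R p]
    exact hJ n hn i j
  · rw [htr]
    exact not_integral_of_ker hk f e hker hg
  · rw [htr]
    exact not_integral_of_ker hk f e hker hh
  · rw [hmap, hmap]
    intro hcomm
    apply hgh
    ext i j
    have h1 := congrFun (congrFun hcomm i) j
    have h2 : ∀ (B : Type) [CommRing B] (φ : A →+* B) (x y : G),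
        ((ρ x).1.map φ * (ρ y).1.map φ) i j = φ (((ρ x).1 * (ρ y).1) i j) := by
      intro B _ φ x y
      rw [Matrix.mul_apply, Matrix.mul_apply, Fin.sum_univ_two, Fin.sum_univ_two, map_add, map_mul,
        map_mul]
      rfl
    rw [h2, h2] at h1 ⊢
    have h3 := hker (((ρ g).1 * (ρ h).1) i j - ((ρ h).1 * (ρ g).1) i j) (by
      rw [map_sub, h1, sub_self])
    rw [map_sub, sub_eq_zero] at h3
    exact h3

end local_step

/-- the prime ideal of a normal subgroup -/
theorem exists_prime {k : Type} [CommRing k] [Algebra k ℚ] [Algebra k ℂ] (hk : Epi k) {G : Type}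
    [Group G] [Group.FG G] (N : Subgroup G) [N.Normal] (hfin : FinH1 k N)
    (hQ : Flexible k (G ⧸ N)) :
    ∃ p ∈ minimalPrimes (CR G), ∀ g : G, g ∈ N ↔ ∀ i j, dev (univ G g) i j ∈ p := by
  obtain ⟨σ, hσ, q₁, q₂, hq, hq₁, hq₂⟩ := hQ
  obtain ⟨g, rfl⟩ := QuotientGroup.mk_surjective q₁
  obtain ⟨h, rfl⟩ := QuotientGroup.mk_surjective q₂
  obtain ⟨τ, hτ⟩ : ∃ τ : Rp G, τ = σ.comp (QuotientGroup.mk' N) := ⟨_, rfl⟩
  have hτg : ∀ x : G, τ x = σ x := fun x => by rw [hτ]; rfl
  have hτN : ∀ x : G, τ x = 1 → x ∈ N := by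
    intro x hx
    rw [hτg] at hx
    exact (QuotientGroup.eq_one_iff x).1 ((injective_iff_map_eq_one σ).1 hσ _ hx)
  have hNτ : ∀ x ∈ N, τ x = 1 := by
    intro x hx
    rw [hτg, (QuotientGroup.eq_one_iff x).2 hx, map_one]
  have hnoeth : IsNoetherianRing (CR G) := CR_noetherian
  have hprime : (RingHom.ker (ev τ)).IsPrime := RingHom.ker_isPrime _
  have hJ : JI (univ G) N ≤ RingHom.ker (ev τ) := by
    rw [JI, Ideal.span_le]
    rintro _ ⟨n, hn, i, j, rfl⟩
    change ev τ _ = 0
    rw [ev_dev, hNτ n hn, dev]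
    change ((1 : Matrix (Fin 2) (Fin 2) ℂ) - 1) i j = 0
    rw [sub_self]
    rfl
  let _ : Algebra k (CR G) := ((algebraMap ℚ (CR G)).comp (algebraMap k ℚ)).toAlgebra
  obtain ⟨p, hp, hpq⟩ := Ideal.exists_minimalPrimes_le hJ
  have hpp : p.IsPrime := hp.1.1
  let _ : Algebra k (Localization.AtPrime p) :=
    ((algebraMap ℚ (Localization.AtPrime p)).comp (algebraMap k ℚ)).toAlgebra
  have hJp : JI (univ G) N ≤ p := hp.1.2
  have htr : ∀ x : G, ev τ (univ G x).1.trace = (τ x).1.trace := by
    intro x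
    rw [Matrix.trace_fin_two, Matrix.trace_fin_two, map_add]
    rfl
  have hmap : ∀ x : G, (univ G x).1.map (ev τ) = (τ x).1 := fun x => rfl
  refine ⟨p, ?_, ?_⟩
  · refine ⟨⟨hpp, bot_le⟩, ?_⟩
    rintro p' ⟨hp', _⟩ hle
    refine hp.2 ⟨hp', ?_⟩ hle
    rw [JI, Ideal.span_le]
    rintro _ ⟨n, hn, i, j, rfl⟩
    obtain ⟨s, hs, h1⟩ := local_step hk p (Localization.AtPrime p) (univ G) N hfin
      (fun n hn i j => hJp (dev_mem hn i j)) (ev τ) (fun x hx => hpq hx) g h
      (by rw [htr, hτg]; exact hq₁) (by rw [htr, hτg]; exact hq₂) (by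
        rw [hmap, hmap]
        intro hcomm
        apply hq
        apply hσ
        rw [map_mul, map_mul, ← hτg, ← hτg]
        exact Subtype.ext hcomm) n hn i j
    have h2 : s * dev (univ G n) i j ∈ p' := by rw [h1]; exact p'.zero_mem
    exact (hp'.mem_or_mem h2).resolve_left fun h3 => hs (hle h3)
  · intro x
    constructor
    · intro hx i j
      exact hJp (dev_mem hx i j)
    · intro hx
      apply hτN
      apply Subtype.ext
      have h1 : dev (τ x) = 0 := by
        ext i j
        rw [← ev_dev]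
        exact hpq (hx i j)
      exact sub_eq_zero.1 h1

/-- **Finiteness.** For `k = ℤ, ℚ`, a finitely generated group has only finitely many normal
subgroups `N` such that `H₁(N; k)` is finitely generated over `k` and the quotient is flexible over
`k`. -/
theorem finite_normal {k : Type} [CommRing k] [Algebra k ℚ] [Algebra k ℂ] (hk : Epi k) (G : Type)
    [Group G] [Group.FG G] :
    {N : Subgroup G | ∃ _ : N.Normal, FinH1 k N ∧ Flexible k (G ⧸ N)}.Finite := by
  have hnoeth : IsNoetherianRing (CR G) := CR_noetherian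
  have h1 := minimalPrimes.finite_of_isNoetherianRing (CR G)
  refine Set.Finite.of_finite_image (f := fun N : Subgroup G => (N : Set G)) ?_
    SetLike.coe_injective.injOn
  refine (h1.image fun p => {g : G | ∀ i j, dev (univ G g) i j ∈ p}).subset ?_
  rintro _ ⟨N, ⟨hN, hf, hQ⟩, rfl⟩
  obtain ⟨p, hp, hpN⟩ := exists_prime hk N hf hQ
  refine ⟨p, hp, ?_⟩
  ext g
  exact (hpN g).symm

end Pool.Agent.N509.RG
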