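import Pool.Agent.N509.RG.Cyc

set_option autoImplicit false

/-!
# Subnormal series
-/

namespace Pool.Agent.N509.RG

open Pool.Agent.Y110.FJ (ClosedE)

section

variable {C : ∀ (G : Type) [Group G], Prop} {G : Type} [Group G]

theorem C_of_top (hC : ClosedE C) {E : Type} [Group E] {H : Subgroup E} (hH : H = ⊤) (h : C H) :
    C E := by
  subst hH
  exact hC.base.of_injective _ _ Subgroup.topEquiv.symm.toMonoidHom (MulEquiv.injective _) h

theorem map_zpow_mem {N : Subgroup G} {ψ : MulAut G} (h : N.map ψ.toMonoidHom = N) (z : ℤ) :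
    ∀ n ∈ N, (ψ ^ z) n ∈ N := by
  have h1 : ∀ n ∈ N, ψ n ∈ N := by
    intro n hn
    rw [← h]
    exact ⟨n, hn, rfl⟩
  have h2 : ∀ n ∈ N, ψ⁻¹ n ∈ N := by
    intro n hn
    rw [← h] at hn
    obtain ⟨m, hm, rfl⟩ := hn
    change ψ⁻¹ (ψ m) ∈ N
    rw [MulAut.inv_apply_self]
    exact hm
  induction z using Int.induction_on with
  | zero => intro n hn; simpa using hn
  | succ z ih =>
    intro n hn
    rw [zpow_add_one, MulAut.mul_apply]
    exact ih _ (h1 n hn)
  | pred z ih =>
    intro n hn
    rw [zpow_sub_one, MulAut.mul_apply]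
    exact ih _ (h2 n hn)

/-- the case of an invariant normal subgroup -/
theorem C_invariant (hC : ClosedE C) (ψ : MulAut G) (N : Subgroup G) [hN : N.Normal]
    (hψ : N.map ψ.toMonoidHom = N) (h1 : CyclicExt C N) (h2 : CyclicExt C (G ⧸ N)) :
    C (G ⋊[zpowersHom (MulAut G) ψ] Multiplicative ℤ) := by
  obtain ⟨N', hN'⟩ : ∃ N' : Subgroup (G ⋊[zpowersHom (MulAut G) ψ] Multiplicative ℤ),
    N' = N.map SemidirectProduct.inl := ⟨_, rfl⟩
  have hconj : ∀ (z : Multiplicative ℤ) (n : G),
      (SemidirectProduct.inr z : G ⋊[zpowersHom (MulAut G) ψ] Multiplicative ℤ) *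
        SemidirectProduct.inl n * (SemidirectProduct.inr z)⁻¹ =
        SemidirectProduct.inl ((ψ ^ z.toAdd) n) := by
    intro z n
    have h3 := SemidirectProduct.inl_aut (φ := zpowersHom (MulAut G) ψ) z n
    rw [map_inv] at h3
    exact h3.symm
  have hnorm : N'.Normal := by
    constructor
    rintro x hx y
    rw [hN'] at hx ⊢
    obtain ⟨n, hn, rfl⟩ := hx
    have h3 : y = SemidirectProduct.inl y.left * SemidirectProduct.inr y.right :=
      (SemidirectProduct.inl_left_mul_inr_right y).symm
    have h4 : y * SemidirectProduct.inl n * y⁻¹ =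
        SemidirectProduct.inl (y.left * (ψ ^ y.right.toAdd) n * y.left⁻¹) := by
      conv_lhs => rw [h3]
      rw [mul_inv_rev, map_mul, map_mul, ← hconj, map_inv]
      simp only [mul_assoc]
    rw [h4]
    exact ⟨_, hN.conj_mem _ (map_zpow_mem hψ _ n hn) _, rfl⟩
  have hmem : ∀ x : G, (SemidirectProduct.inl x : G ⋊[zpowersHom (MulAut G) ψ] Multiplicative ℤ) ∈ N'
      ↔ x ∈ N := by
    intro x
    rw [hN']
    constructor
    · rintro ⟨n, hn, hnx⟩
      rwa [← SemidirectProduct.inl_injective hnx]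
    · intro hx
      exact ⟨x, hx, rfl⟩
  have hright : ∀ x ∈ N', SemidirectProduct.rightHom x = 1 := by
    intro x hx
    rw [hN'] at hx
    obtain ⟨n, _, rfl⟩ := hx
    exact SemidirectProduct.rightHom_inl n
  refine C_of_normal hC N' (h1.congr hC ?_) ?_
  · rw [hN']
    exact N.equivMapOfInjective _ SemidirectProduct.inl_injective
  · let j : G ⧸ N →* (G ⋊[zpowersHom (MulAut G) ψ] Multiplicative ℤ) ⧸ N' :=
      QuotientGroup.map N N' SemidirectProduct.inl (fun x hx => (hmem x).2 hx)
    have hj : Function.Injective j := by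
      rw [injective_iff_map_eq_one]
      intro q hq
      obtain ⟨x, rfl⟩ := QuotientGroup.mk_surjective q
      rw [QuotientGroup.eq_one_iff, ← hmem]
      exact (QuotientGroup.eq_one_iff _).1 hq
    have hjr : j.range = (SemidirectProduct.inl : G →* G ⋊[zpowersHom (MulAut G) ψ]
        Multiplicative ℤ).range.map (QuotientGroup.mk' N') := by
      ext q
      constructor
      · rintro ⟨q, rfl⟩
        obtain ⟨x, rfl⟩ := QuotientGroup.mk_surjective q
        exact ⟨SemidirectProduct.inl x, ⟨x, rfl⟩, rfl⟩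
      · rintro ⟨_, ⟨x, rfl⟩, rfl⟩
        exact ⟨QuotientGroup.mk x, rfl⟩
    have hjn : j.range.Normal := by
      rw [hjr]
      refine Subgroup.Normal.map ?_ _ (QuotientGroup.mk'_surjective N')
      rw [SemidirectProduct.range_inl_eq_ker_rightHom]
      infer_instance
    refine C_of_top hC ?_ (h2.internal hC j hj hjn
      (QuotientGroup.mk (SemidirectProduct.inr (Multiplicative.ofAdd 1))) ?_)
    · rw [eq_top_iff]
      intro q _
      obtain ⟨x, rfl⟩ := QuotientGroup.mk_surjective q
      have h3 : x = SemidirectProduct.inl x.left *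
          (SemidirectProduct.inr (Multiplicative.ofAdd 1)) ^ x.right.toAdd := by
        rw [← map_zpow, ← ofAdd_zsmul, smul_eq_mul, mul_one, ofAdd_toAdd,
          SemidirectProduct.inl_left_mul_inr_right]
      have m1 : (QuotientGroup.mk (SemidirectProduct.inl x.left) :
          (G ⋊[zpowersHom (MulAut G) ψ] Multiplicative ℤ) ⧸ N') ∈ j.range :=
        ⟨QuotientGroup.mk x.left, rfl⟩
      have m2 : (QuotientGroup.mk ((SemidirectProduct.inr (Multiplicative.ofAdd 1)) ^ x.right.toAdd) :
          (G ⋊[zpowersHom (MulAut G) ψ] Multiplicative ℤ) ⧸ N') ∈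
          Subgroup.zpowers (QuotientGroup.mk (SemidirectProduct.inr (Multiplicative.ofAdd 1))) :=
        ⟨x.right.toAdd, rfl⟩
      rw [h3]
      exact mul_mem (Subgroup.mem_sup_left m1) (Subgroup.mem_sup_right m2)
    · rintro n hn ⟨q, hq⟩
      obtain ⟨x, rfl⟩ := QuotientGroup.mk_surjective q
      have h3 : (SemidirectProduct.inl x : G ⋊[zpowersHom (MulAut G) ψ] Multiplicative ℤ)⁻¹ *
          (SemidirectProduct.inr (Multiplicative.ofAdd 1)) ^ n ∈ N' := QuotientGroup.eq.1 hq
      have h4 := hright _ h3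
      rw [map_mul, map_inv, SemidirectProduct.rightHom_inl, inv_one, one_mul, map_pow,
        SemidirectProduct.rightHom_inr, ← ofAdd_nsmul, ofAdd_eq_one] at h4
      simp at h4
      omega

/-- the case of finitely many translates -/
theorem C_finite_orbit (hC : ClosedE C) (φ : MulAut G) (N : Subgroup G) [hN : N.Normal]
    {S : Set (Subgroup G)} (hS : S.Finite) (hNS : ∀ k : ℕ, N.map (φ ^ k).toMonoidHom ∈ S)
    (h1 : CyclicExt C N) (h2 : CyclicExt C (G ⧸ N)) :
    C (G ⋊[zpowersHom (MulAut G) φ] Multiplicative ℤ) := by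
  have hfin : Finite S := hS
  obtain ⟨a, b, hab, heq⟩ := Finite.exists_ne_map_eq_of_infinite
    (fun k : ℕ => (⟨_, hNS k⟩ : S))
  have heq' : N.map (φ ^ a).toMonoidHom = N.map (φ ^ b).toMonoidHom := congrArg Subtype.val heq
  have key : ∀ a b : ℕ, a < b → N.map (φ ^ a).toMonoidHom = N.map (φ ^ b).toMonoidHom →
      C (G ⋊[zpowersHom (MulAut G) φ] Multiplicative ℤ) := by
    intro a b hlt h
    obtain ⟨k, rfl⟩ := Nat.exists_eq_add_of_lt hlt
    refine C_of_pow hC φ (k + 1) (Nat.succ_pos k) (C_invariant hC _ N ?_ h1 h2)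
    have h3 : N.map (φ ^ (a + k + 1)).toMonoidHom =
        (N.map (φ ^ (k + 1)).toMonoidHom).map (φ ^ a).toMonoidHom := by
      rw [Subgroup.map_map]
      congr 1
      rw [add_assoc, pow_add]
      rfl
    rw [h3] at h
    exact (Subgroup.map_injective (φ ^ a).injective h).symm
  rcases lt_or_gt_of_ne hab with h | h
  · exact key a b h heq'
  · exact key b a h heq'.symm

end

/-! ## transport of the conditions -/

theorem FinH1.congr {k : Type} [CommRing k] {G H : Type} [Group G] [Group H] (e : G ≃* H)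
    (h : FinH1 k G) : FinH1 k H := by
  intro V _ _ v
  have h1 := h V (v.comp (MulEquiv.toAdditive e).toAddMonoidHom)
  have h2 : Set.range (v.comp (MulEquiv.toAdditive e).toAddMonoidHom) = Set.range v := by
    ext x
    constructor
    · rintro ⟨y, rfl⟩
      exact ⟨_, rfl⟩
    · rintro ⟨y, rfl⟩
      exact ⟨(MulEquiv.toAdditive e).symm y, by simp⟩
  rwa [h2] at h1

theorem FinH1.of_fg {k : Type} [CommRing k] {G : Type} [Group G] [hG : Group.FG G] :
    FinH1 k G := by
  obtain ⟨S, hS⟩ := hG.out
  intro V _ _ v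
  classical
  refine ⟨S.image fun s => v (Additive.ofMul s), ?_⟩
  apply le_antisymm
  · rw [Submodule.span_le]
    intro x hx
    simp only [Finset.coe_image, Set.mem_image] at hx
    obtain ⟨s, _, rfl⟩ := hx
    exact Submodule.subset_span ⟨_, rfl⟩
  · rw [Submodule.span_le]
    rintro _ ⟨g, rfl⟩
    have hg : g.toMul ∈ Subgroup.closure (S : Set G) := by rw [hS]; trivial
    have key : ∀ x ∈ Subgroup.closure (S : Set G), v (Additive.ofMul x) ∈
        Submodule.span k ((S.image fun s => v (Additive.ofMul s) : Finset V) : Set V) := by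
      intro x hx
      induction hx using Subgroup.closure_induction with
      | mem x hx =>
        refine Submodule.subset_span ?_
        simp only [Finset.coe_image, Set.mem_image]
        exact ⟨x, hx, rfl⟩
      | one => rw [ofMul_one, map_zero]; exact Submodule.zero_mem _
      | mul x y _ _ hx hy => rw [ofMul_mul, map_add]; exact Submodule.add_mem _ hx hy
      | inv x _ hx => rw [ofMul_inv, map_neg]; exact Submodule.neg_mem _ hx
    exact key _ hg

theorem Flexible.congr {k : Type} [CommRing k] [Algebra k ℂ] {Q Q' : Type} [Group Q] [Group Q']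
    (e : Q ≃* Q') (h : Flexible k Q) : Flexible k Q' := by
  obtain ⟨σ, hσ, g, h, hgh, h1, h2⟩ := h
  refine ⟨σ.comp e.symm.toMonoidHom, hσ.comp e.symm.injective, e g, e h, ?_, ?_, ?_⟩
  · intro heq
    apply hgh
    apply e.injective
    rw [map_mul, map_mul, heq]
  · have h3 : (σ.comp e.symm.toMonoidHom) (e g) = σ g := by simp
    rw [h3]
    exact h1
  · have h3 : (σ.comp e.symm.toMonoidHom) (e h) = σ h := by simp
    rw [h3]
    exact h2

section step

variable {C : ∀ (G : Type) [Group G], Prop} {G : Type} [Group G]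

/-- finite groups -/
theorem CyclicExt.of_finite (hC : ClosedE C) [Finite G] : CyclicExt C G := by
  intro φ
  refine hC.base.finiteIndex _ (SemidirectProduct.inr : Multiplicative ℤ →*
    G ⋊[zpowersHom (MulAut G) φ] Multiplicative ℤ).range ?_
    (C_range hC _ SemidirectProduct.inr_injective hC.base.int)
  have hfin : Finite ((G ⋊[zpowersHom (MulAut G) φ] Multiplicative ℤ) ⧸
      (SemidirectProduct.inr : Multiplicative ℤ →*
        G ⋊[zpowersHom (MulAut G) φ] Multiplicative ℤ).range) := by
    refine Finite.of_surjective (fun x : G => QuotientGroup.mk (SemidirectProduct.inl x)) ?_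
    intro q
    obtain ⟨y, rfl⟩ := QuotientGroup.mk_surjective q
    refine ⟨y.left, ?_⟩
    rw [QuotientGroup.eq]
    refine ⟨y.right, ?_⟩
    rw [eq_inv_mul_iff_mul_eq]
    exact SemidirectProduct.inl_left_mul_inr_right y
  exact Subgroup.finiteIndex_of_finite_quotient

/-- a finitely generated group has only finitely many normal subgroups of a given finite index -/
theorem finite_normal_index [hG : Group.FG G] (n : ℕ) :
    {N : Subgroup G | N.Normal ∧ Nat.card (G ⧸ N) = n + 1}.Finite := by
  obtain ⟨S, hS⟩ := hG.out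
  have hfin : Finite (G →* Equiv.Perm (Fin (n + 1))) := by
    refine Finite.of_injective (fun f (s : S) => f s) ?_
    intro f f' h
    refine MonoidHom.eq_of_eqOn_dense hS fun s hs => ?_
    exact congrFun h ⟨s, hs⟩
  refine (Set.finite_range fun f : G →* Equiv.Perm (Fin (n + 1)) => f.ker).subset ?_
  rintro N ⟨hN, hcard⟩
  have hf : Finite (G ⧸ N) := Nat.finite_of_card_ne_zero (by omega)
  obtain ⟨e⟩ : Nonempty (G ⧸ N ≃ Fin (n + 1)) := ⟨Finite.equivFinOfCardEq hcard⟩
  refine ⟨(Equiv.permCongrHom e).toMonoidHom.comp ((MulAction.toPermHom (G ⧸ N) (G ⧸ N)).comp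
    (QuotientGroup.mk' N)), ?_⟩
  ext x
  rw [MonoidHom.mem_ker]
  constructor
  · intro hx
    have h1 : MulAction.toPermHom (G ⧸ N) (G ⧸ N) (QuotientGroup.mk' N x) = 1 :=
      (map_eq_one_iff (Equiv.permCongrHom e) (MulEquiv.injective _)).1 hx
    have h2 := congrArg (fun p : Equiv.Perm (G ⧸ N) => p 1) h1
    have h3 : QuotientGroup.mk' N x * 1 = 1 := h2
    rw [mul_one] at h3
    exact (QuotientGroup.eq_one_iff x).1 h3
  · intro hx
    have h1 : QuotientGroup.mk' N x = 1 := (QuotientGroup.eq_one_iff x).2 hx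
    rw [MonoidHom.comp_apply, MonoidHom.comp_apply, h1, map_one, map_one]

/-- **The main step, finite quotients** -/
theorem step_finite (hC : ClosedE C) [Group.FG G] (N : Subgroup G) [hN : N.Normal]
    (hQ : Finite (G ⧸ N)) (h1 : CyclicExt C N) : CyclicExt C G := by
  intro φ
  obtain ⟨n, hn⟩ : ∃ n, Nat.card (G ⧸ N) = n + 1 :=
    Nat.exists_eq_succ_of_ne_zero Nat.card_pos.ne'
  refine C_finite_orbit hC φ N (finite_normal_index n) (fun k => ?_) h1 (CyclicExt.of_finite hC)
  have hn' : (N.map (φ ^ k).toMonoidHom).Normal := hN.map _ (φ ^ k).surjective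
  refine ⟨hn', ?_⟩
  rw [← hn]
  exact (Nat.card_congr (QuotientGroup.congr N (N.map (φ ^ k).toMonoidHom) (φ ^ k) rfl).toEquiv).symm

end step

end Pool.Agent.N509.RG
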